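import Pool.Agent.Helper39.HG.Def

/-!
# Two families of trees: the avoidance argument
-/

set_option autoImplicit false

open Cardinal Set Helper2.HB Pool.Agent.Helper58.HL Pool.Agent.Helper39.HL
  Pool.Agent.Helper39.HT

namespace Pool.Agent.Helper39.HG

variable {κ : Cardinal.{0}} {a n : ℕ} {T₀ : Fin (a + 1) → Set (Node κ.ord.ToType)}
  {T : Fin (n + 1) → Set (Node κ.ord.ToType)} {ι B : Type}

/-- killing all tuples of nodes of length `< ζ` -/
theorem exists_killedG (hκ : κ.IsRegular) (hlim : ∀ x < κ, 2 ^ x < κ)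
    (h₀ : ∀ l, IsRegularTree (T₀ l)) (hT : ∀ l, IsRegularTree (T l)) (hB : #B < κ)
    (c : ((l : Fin (a + 1)) → T₀ l) → ((l : Fin (n + 1)) → T l) → ι)
    (Φ : κ.ord.ToType → B → ((l : Fin (n + 1)) → T l) → Prop) (V : B → Set ι)
    (p : (l : Fin (a + 1)) → T₀ l) (r : B → (l : Fin (n + 1)) → T l)
    (hbad : ∀ (p₁ : (l : Fin (a + 1)) → T₀ l) (r₁ : B → (l : Fin (n + 1)) → T l), p ≤ p₁ →
      (∀ b l, r b l ≤ r₁ b l) → ¬ StepGoodG c Φ V p₁ r₁) {R : Type} (hR : #R < κ)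
    (p₀ : R → (l : Fin (a + 1)) → T₀ l) (hp₀ : ∀ m, p ≤ p₀ m) (ζ : κ.ord.ToType)
    (p₁ : R → (l : Fin (a + 1)) → T₀ l) (hp₁ : p₀ ≤ p₁) :
    ∃ p', p₁ ≤ p' ∧ (∀ m l, ζ ≤ (p' m l : Node κ.ord.ToType).len) ∧
      ∀ (m : Fin (a + 1) → R) (r₁ : B → (l : Fin (n + 1)) → T l),
        (∀ b l, r b l ≤ r₁ b l ∧ (r₁ b l : Node κ.ord.ToType).len < ζ) →
        ∃ ζ', KilledG c Φ V (fun l => p' (m l) l) r₁ ζ' := by
  classical
  have hfin : #(Fin (a + 1)) < κ :=
    lt_of_lt_of_le (Cardinal.lt_aleph0_of_finite _) hκ.aleph0_le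
  have hJ : #((Fin (a + 1) → R) × {w : (l : Fin (n + 1)) → B → T l //
      ∀ l b, (w l b : Node κ.ord.ToType).len < ζ}) < κ := by
    rw [Cardinal.mk_prod]
    simp only [Cardinal.lift_id]
    refine Cardinal.mul_lt_of_lt hκ.aleph0_le ?_ (card_lowB hκ hlim hT hB ζ)
    rw [← Cardinal.power_def]
    exact pow_lt hlim hκ.aleph0_le hR hfin
  obtain ⟨p2, hp2, hreq⟩ := (Closed.pi (J := R) (closed_tuple hκ h₀)).meet hκ.aleph0_le hJ
    (fun (j : (Fin (a + 1) → R) × {w : (l : Fin (n + 1)) → B → T l //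
      ∀ l b, (w l b : Node κ.ord.ToType).len < ζ}) (p' : R → (l : Fin (a + 1)) → T₀ l) =>
        (∀ b l, r b l ≤ j.2.1 l b) →
          ∃ ζ', KilledG c Φ V (fun l => p' (j.1 l) l) (fun b l => j.2.1 l b) ζ')
    (by
      intro j p1 p2 h12 h hle
      obtain ⟨ζ', h'⟩ := h hle
      exact ⟨ζ', h'.mono fun l => h12 (j.1 l) l⟩) p₁ (by
      rintro ⟨m, w⟩ p1 hp1
      by_cases hle : ∀ b l, r b l ≤ w.1 l b
      · have h1 := hbad (fun l => p1 (m l) l) (fun b l => w.1 l b)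
          (fun l => ((hp₀ (m l)).trans ((hp₁ (m l)).trans (hp1 (m l)))) l) hle
        unfold StepGoodG at h1
        push Not at h1
        obtain ⟨x, hx, ζ', h2⟩ := h1
        refine ⟨fun m' l => if m' = m l then x l else p1 m' l, fun m' l => ?_, fun _ => ⟨ζ', ?_⟩⟩
        · dsimp only
          split_ifs with hm
          · rw [hm]
            exact hx l
          · exact le_rfl
        · have h3 : (fun l => if m l = m l then x l else p1 (m l) l) = x := by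
            funext l
            rw [if_pos rfl]
          intro ζ hζ x₁ hx₁ hxl Y
          dsimp only at hx₁
          rw [h3] at hx₁
          exact h2 ζ hζ x₁ hx₁ hxl Y
      · exact ⟨p1, le_rfl, fun h => absurd h hle⟩)
  have h6 : ∀ m l, ∃ u : T₀ l, p2 m l ≤ u ∧ (u : Node κ.ord.ToType).len =
      max ζ (p2 m l : Node κ.ord.ToType).len := fun m l =>
    exists_level (h₀ l) (p2 m l) _ (le_max_right _ _)
  choose p' hp'1 hp'2 using h6
  refine ⟨p', fun m l => (hp2 m l).trans (hp'1 m l),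
    fun m l => by rw [hp'2]; exact le_max_left _ _, fun m r₁ hr => ?_⟩
  obtain ⟨ζ', h⟩ := hreq (m, ⟨fun l b => r₁ b l, fun l b => (hr b l).2⟩) (fun b l => (hr b l).1)
  exact ⟨ζ', h.mono fun l => hp'1 (m l) l⟩

/-- **The avoidance argument** relative to a full property, two families of trees. -/
theorem avoidG (hκ : κ.IsInaccessible) (hHL : HLProp κ (n + 1))
    (h₀ : ∀ l, IsRegularTree (T₀ l)) (hT : ∀ l, IsRegularTree (T l)) (hB : #B < κ)
    [hBne : Nonempty B] (c : ((l : Fin (a + 1)) → T₀ l) → ((l : Fin (n + 1)) → T l) → ι)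
    (Φ : κ.ord.ToType → B → ((l : Fin (n + 1)) → T l) → Prop)
    (r : B → (l : Fin (n + 1)) → T l) (hfull : Full Φ r) (V : B → Set ι)
    (p : (l : Fin (a + 1)) → T₀ l)
    (hbad : ∀ (p₁ : (l : Fin (a + 1)) → T₀ l) (r₁ : B → (l : Fin (n + 1)) → T l), p ≤ p₁ →
      (∀ b l, r b l ≤ r₁ b l) → ¬ StepGoodG c Φ V p₁ r₁) {R C : Type} (hR : #R < κ)
    [hRne : Nonempty R] (hC : #C < κ) [hCne : Nonempty C]
    (p₀ : R → (l : Fin (a + 1)) → T₀ l) (hp₀ : ∀ m, p ≤ p₀ m)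
    (q₀ : B → (l : Fin (n + 1)) → C → T l) (hq₀ : ∀ b l k, r b l ≤ q₀ b l k) :
    ∃ (ζ : κ.ord.ToType) (x : R → (l : Fin (a + 1)) → T₀ l)
      (y : B → (l : Fin (n + 1)) → C → T l),
      (∀ m l, p₀ m l ≤ x m l ∧ (x m l : Node κ.ord.ToType).len = ζ) ∧
      (∀ b l k, q₀ b l k ≤ y b l k ∧ (y b l k : Node κ.ord.ToType).len = ζ) ∧
      ∀ (m : Fin (a + 1) → R) (k : B → Fin (n + 1) → C),
        ¬ ∀ b, c (fun l => x (m l) l) (fun l => y b l (k b l)) ∈ V b := by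
  classical
  have hreg := hκ.isRegular
  have hlim : ∀ x < κ, 2 ^ x < κ := fun x hx => hκ.isStrongLimit.isStrongPrelimit hx
  have h0 := hreg.aleph0_le
  have hNM : NoMaxOrder κ.ord.ToType := Cardinal.noMaxOrder h0
  have hfin : #(Fin (n + 1)) < κ := lt_of_lt_of_le (Cardinal.lt_aleph0_of_finite _) h0
  have hfina : #(Fin (a + 1)) < κ := lt_of_lt_of_le (Cardinal.lt_aleph0_of_finite _) h0
  -- the rows
  obtain ⟨G, hG⟩ := closed_seq h0 (Closed.pi (J := R) (closed_tuple hreg h₀))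
    (ι := κ.ord.ToType) (fun ζ => Cardinal.mk_Iio_toType_ord_lt ζ)
    (fun ζ p' => (∀ m l, ζ ≤ (p' m l : Node κ.ord.ToType).len) ∧
      ∀ (m : Fin (a + 1) → R) (r₁ : B → (l : Fin (n + 1)) → T l),
        (∀ b l, r b l ≤ r₁ b l ∧ (r₁ b l : Node κ.ord.ToType).len < ζ) →
        ∃ ζ', KilledG c Φ V (fun l => p' (m l) l) r₁ ζ') p₀
    (fun ζ p' hp' => exists_killedG hreg hlim h₀ hT hB c Φ V p r hbad hR p₀ hp₀ ζ p' hp')
  have hGmono : ∀ η ζ, η ≤ ζ → G η ≤ G ζ := by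
    intro η ζ h
    rcases eq_or_lt_of_le h with h | h
    · rw [h]
    · exact (hG ζ).1 η h
  let x : R → κ.ord.ToType → (l : Fin (a + 1)) → T₀ l := fun m ζ l =>
    ⟨(G ζ m l : Node κ.ord.ToType).restr ζ,
      (h₀ l).down _ (G ζ m l).2 _ (Node.restr_le ((hG ζ).2.2.1 m l))⟩
  have hxge : ∀ m ζ l (u : T₀ l), u ≤ G ζ m l → (u : Node κ.ord.ToType).len ≤ ζ → u ≤ x m ζ l :=
    fun m ζ l u h1 h2 => Node.le_restr h1 h2
  -- the labels
  let A : Type := (Fin (a + 1) → R) × (B → Fin (n + 1) → C)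
  have hA : #A < κ := by
    have h1 : #((Fin (a + 1) → R) × (B → Fin (n + 1) → C)) < κ := by
      rw [Cardinal.mk_prod]
      simp only [Cardinal.lift_id]
      refine Cardinal.mul_lt_of_lt h0 ?_ ?_
      · rw [← Cardinal.power_def]
        exact pow_lt hlim h0 hR hfina
      · rw [← Cardinal.power_def]
        refine pow_lt hlim h0 ?_ hB
        rw [← Cardinal.power_def]
        exact pow_lt hlim h0 hC hfin
    exact h1
  have hANe : Nonempty A := ⟨(fun _ => hRne.some, fun _ _ => hCne.some)⟩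
  let D : Type := B × C
  have hD : #D < κ := by
    have h1 : #(B × C) < κ := by
      rw [Cardinal.mk_prod]
      simp only [Cardinal.lift_id]
      exact Cardinal.mul_lt_of_lt h0 hB hC
    exact h1
  have hDne : Nonempty D := ⟨(hBne.some, hCne.some)⟩
  let r' : (l : Fin (n + 1)) → D → T l := fun l z => q₀ z.1 l z.2
  have hrr' : ∀ l (z : D), r z.1 l ≤ r' l z := fun l z => hq₀ z.1 l z.2
  have hBF : #(B × Fin (n + 1)) < κ := by
    rw [Cardinal.mk_prod]
    simp only [Cardinal.lift_id]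
    exact Cardinal.mul_lt_of_lt h0 hB hfin
  have hkill : ∀ (e : A) (w : (l : Fin (n + 1)) → D → T l), ∃ ζ₁ ζ',
      (∀ l z, r' l z ≤ w l z) →
      KilledG c Φ V (fun l => G ζ₁ (e.1 l) l) (fun b l => w l (b, e.2 b l)) ζ' := by
    intro e w
    by_cases hw : ∀ l z, r' l z ≤ w l z
    · obtain ⟨l₀, hl₀⟩ := exists_bound hreg hBF
        (fun z => (w z.2 (z.1, e.2 z.1 z.2) : Node κ.ord.ToType).len)
      obtain ⟨ζ₁, hζ₁⟩ := exists_gt l₀
      obtain ⟨ζ', h⟩ := (hG ζ₁).2.2.2 e.1 (fun b l => w l (b, e.2 b l))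
        (fun b l => ⟨(hrr' l (b, e.2 b l)).trans (hw l _), (hl₀ (b, l)).trans_lt hζ₁⟩)
      exact ⟨ζ₁, ζ', fun _ => h⟩
    · obtain ⟨b⟩ := hBne
      obtain ⟨k⟩ := hCne
      exact ⟨(q₀ b 0 k : Node κ.ord.ToType).len, (q₀ b 0 k : Node κ.ord.ToType).len,
        fun h => absurd h hw⟩
  choose ζ₁ ζk hk using hkill
  -- the families
  let Q : A → ((l : Fin (n + 1)) → D → T l) → (l : Fin (n + 1)) → Set (D → T l) :=
    fun e w l => {z | ∃ (b : B) (u : T l), w l (b, e.2 b l) ≤ u ∧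
      (u : Node κ.ord.ToType).len < ζk e w ∧ z = Function.update (w l) (b, e.2 b l) u}
  have hQ : ∀ e w, (∀ l z, r' l z ≤ w l z) → ∀ l, #(Q e w l) < κ ∧
      ∀ z ∈ Q e w l, ∀ k, w l k ≤ z k := by
    intro e w _ l
    refine ⟨?_, ?_⟩
    · have h1 : #(Q e w l) ≤ #(B × {u : T l // (u : Node κ.ord.ToType).len < ζk e w}) := by
        have h2 : Q e w l ⊆ range (fun z : B × {u : T l // (u : Node κ.ord.ToType).len <
            ζk e w} => Function.update (w l) (z.1, e.2 z.1 l) (z.2 : T l)) := by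
          rintro z ⟨b, u, -, hu, rfl⟩
          exact ⟨(b, ⟨u, hu⟩), rfl⟩
        exact (Cardinal.mk_le_mk_of_subset h2).trans Cardinal.mk_range_le
      refine lt_of_le_of_lt h1 ?_
      rw [Cardinal.mk_prod]
      simp only [Cardinal.lift_id]
      exact Cardinal.mul_lt_of_lt h0 hB (card_len_lt hreg (hT l) _)
    · rintro z ⟨b, u, hu, -, rfl⟩ k
      by_cases hk : k = (b, e.2 b l)
      · subst hk
        rw [Function.update_self]
        exact hu
      · rw [Function.update_of_ne hk]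
  obtain ⟨ζs, hζs⟩ := exists_level_label_pow hκ hHL hT hA hD r' Q hQ
  obtain ⟨ζt, hζt⟩ := exists_gt ζs
  -- the final level
  have hI : #(A × {w : (l : Fin (n + 1)) → D → T l //
      ∀ l k, (w l k : Node κ.ord.ToType).len < ζt}) < κ := by
    rw [Cardinal.mk_prod]
    simp only [Cardinal.lift_id]
    exact Cardinal.mul_lt_of_lt h0 hA (card_lowB hreg hlim hT hD ζt)
  have hIF : #((A × {w : (l : Fin (n + 1)) → D → T l //
      ∀ l k, (w l k : Node κ.ord.ToType).len < ζt}) × Fin (a + 1)) < κ := by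
    rw [Cardinal.mk_prod]
    simp only [Cardinal.lift_id]
    exact Cardinal.mul_lt_of_lt h0 hI hfina
  have hRF : #(R × Fin (a + 1)) < κ := by
    rw [Cardinal.mk_prod]
    simp only [Cardinal.lift_id]
    exact Cardinal.mul_lt_of_lt h0 hR hfina
  obtain ⟨f1, hf1⟩ := exists_bound hreg hI (fun z => ζ₁ z.1 z.2.1)
  obtain ⟨f2, hf2⟩ := exists_bound hreg hI (fun z => ζk z.1 z.2.1)
  obtain ⟨f3, hf3⟩ := exists_bound hreg hIF
    (fun z => (G (ζ₁ z.1.1 z.1.2.1) (z.1.1.1 z.2) z.2 : Node κ.ord.ToType).len)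
  obtain ⟨f4, hf4⟩ := exists_bound hreg hRF (fun z => (p₀ z.1 z.2 : Node κ.ord.ToType).len)
  obtain ⟨ζ, hζ, Y, hY1, hY2⟩ := hfull (max ζt (max (max f1 f2) (max f3 f4)))
  have g0 : ζt ≤ ζ := (le_max_left _ _).trans hζ
  have g' : max (max f1 f2) (max f3 f4) ≤ ζ := (le_max_right _ _).trans hζ
  have g1 : f1 ≤ ζ := ((le_max_left _ _).trans (le_max_left _ _)).trans g'
  have g2 : f2 ≤ ζ := ((le_max_right _ _).trans (le_max_left _ _)).trans g'
  have g3 : f3 ≤ ζ := ((le_max_left _ _).trans (le_max_right _ _)).trans g'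
  have g4 : f4 ≤ ζ := ((le_max_right _ _).trans (le_max_right _ _)).trans g'
  have hlow : ∀ b l (u : T l), r b l ≤ u → (u : Node κ.ord.ToType).len = ζs →
      u ≤ Y b l u ∧ (Y b l u : Node κ.ord.ToType).len = ζ := fun b l u hu hul =>
    hY1 b l u hu ((hul.trans_lt hζt).trans_le (le_max_left _ _))
  by_contra hcon
  push Not at hcon
  have hlab : ∀ w : (l : Fin (n + 1)) → D → T l, ∃ e : A,
      (∀ l z, r' l z ≤ w l z ∧ (w l z : Node κ.ord.ToType).len = ζs) →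
        ∀ b, c (fun l => x (e.1 l) ζ l) (fun l => Y b l (w l (b, e.2 b l))) ∈ V b := by
    intro w
    by_cases hw : ∀ l z, r' l z ≤ w l z ∧ (w l z : Node κ.ord.ToType).len = ζs
    · obtain ⟨m, k, hmk⟩ := hcon ζ (fun m l => x m ζ l) (fun b l k => Y b l (w l (b, k)))
        (fun m l => ⟨hxge m ζ l _ ((hG ζ).2.1 m l) ((hf4 (m, l)).trans g4), rfl⟩)
        (fun b l k => by
          have h1 := hlow b l (w l (b, k)) ((hrr' l (b, k)).trans (hw l (b, k)).1)
            (hw l (b, k)).2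
          exact ⟨le_trans (hw l (b, k)).1 h1.1, h1.2⟩)
      exact ⟨(m, k), fun _ => hmk⟩
    · exact ⟨hANe.some, fun h => absurd h hw⟩
  choose lab hlab using hlab
  obtain ⟨e, w, hw, yy, hyy, hyyc⟩ := hζs lab
  have hrw : ∀ l z, r' l z ≤ w l z := fun l z => (hw l z).1
  have hwt : ∀ l k, (w l k : Node κ.ord.ToType).len < ζt := fun l k =>
    (hw l k).2.trans_lt hζt
  refine hk e w hrw ζ ((hf2 (e, ⟨w, hwt⟩)).trans g2) (fun l => x (e.1 l) ζ l)
    (fun l => hxge _ _ _ _ (hGmono _ _ ((hf1 (e, ⟨w, hwt⟩)).trans g1) _ _)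
      ((hf3 ((e, ⟨w, hwt⟩), l)).trans g3)) (fun l => rfl)
    (fun b l u => Y b l (yy l (Function.update (w l) (b, e.2 b l) u) (b, e.2 b l))) ⟨?_, ?_⟩
  · intro b l u hu hul
    have h1 := hyy l (Function.update (w l) (b, e.2 b l) u) ⟨b, u, hu, hul, rfl⟩ (b, e.2 b l)
    rw [Function.update_self] at h1
    have h2 := hlow b l _ (((hrr' l (b, e.2 b l)).trans (hrw l _)).trans (le_trans hu h1.1)) h1.2
    exact ⟨h1.1.trans h2.1, h2.2⟩
  · intro b u hu
    have hz : ∀ l, Function.update (w l) (b, e.2 b l) (u l) ∈ Q e w l := fun l =>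
      ⟨b, u l, (hu l).1, (hu l).2, rfl⟩
    have h3 : ∀ l z, w l z ≤ Function.update (w l) (b, e.2 b l) (u l) z := fun l z =>
      (hQ e w hrw l).2 _ (hz l) z
    refine ⟨?_, ?_⟩
    · refine hY2 b (fun l => yy l (Function.update (w l) (b, e.2 b l) (u l)) (b, e.2 b l))
        fun l => ?_
      have h1 := hyy l _ (hz l) (b, e.2 b l)
      refine ⟨((hrr' l (b, e.2 b l)).trans (hrw l _)).trans ((h3 l _).trans h1.1), ?_⟩
      exact (h1.2.trans_lt hζt).trans_le (le_max_left _ _)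
    · have h1 := hyyc (fun l => Function.update (w l) (b, e.2 b l) (u l)) hz
      have h2 := hlab (fun l => yy l (Function.update (w l) (b, e.2 b l) (u l))) (fun l z =>
        ⟨(hrw l z).trans ((h3 l z).trans (hyy l _ (hz l) z).1), (hyy l _ (hz l) z).2⟩) b
      rw [h1] at h2
      exact h2

end Pool.Agent.Helper39.HG
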