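import Pool.Agent.Helper39.HT.MatD

/-!
# Two families of trees: definitions and branches
-/

set_option autoImplicit false

open Cardinal Set Helper2.HB Pool.Agent.Helper58.HL Pool.Agent.Helper39.HL
  Pool.Agent.Helper39.HT

namespace Pool.Agent.Helper39.HG

section defs

variable {K : Type} [LinearOrder K] {a d : ℕ} {T₀ : Fin a → Set (Node K)}
  {T : Fin d → Set (Node K)} {ι B : Type}

/-- The levels of the boxes: there are extensions `x l p` of all `p ∈ P l` (`l < a`) and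
extensions `y l q` of all `q ∈ Q l` (`l < d`) of length `ζ` such that the colour of
`((x l (p l))_l, (y l (q l))_l)` is in `S` for all `p l ∈ P l` and `q l ∈ Q l`. -/
def boxG (c : ((l : Fin a) → T₀ l) → ((l : Fin d) → T l) → ι) (P : (l : Fin a) → Set (T₀ l))
    (Q : (l : Fin d) → Set (T l)) (S : Set ι) : Set K :=
  {ζ | ∃ (x : (l : Fin a) → T₀ l → T₀ l) (y : (l : Fin d) → T l → T l),
    (∀ l, ∀ p ∈ P l, p ≤ x l p ∧ (x l p : Node K).len = ζ) ∧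
    (∀ l, ∀ q ∈ Q l, q ≤ y l q ∧ (y l q : Node K).len = ζ) ∧
    ∀ (p : (l : Fin a) → T₀ l) (q : (l : Fin d) → T l), (∀ l, p l ∈ P l) → (∀ l, q l ∈ Q l) →
      c (fun l => x l (p l)) (fun l => y l (q l)) ∈ S}

/-- The set `S` of colours has all boxes above `(t₀, t)`. -/
def AllBoxesG (c : ((l : Fin a) → T₀ l) → ((l : Fin d) → T l) → ι) (t₀ : (l : Fin a) → T₀ l)
    (t : (l : Fin d) → T l) (S : Set ι) : Prop :=
  ∀ (P : (l : Fin a) → Set (T₀ l)) (Q : (l : Fin d) → Set (T l)),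
    (∀ l, #(P l) < #K ∧ ∀ p ∈ P l, t₀ l ≤ p) → (∀ l, #(Q l) < #K ∧ ∀ q ∈ Q l, t l ≤ q) →
    (boxG c P Q S).Nonempty

/-- `p` and `r` force that a further row can be added -/
def StepGoodG (c : ((l : Fin a) → T₀ l) → ((l : Fin d) → T l) → ι)
    (Φ : K → B → ((l : Fin d) → T l) → Prop) (V : B → Set ι) (p : (l : Fin a) → T₀ l)
    (r : B → (l : Fin d) → T l) : Prop :=
  ∀ p' : (l : Fin a) → T₀ l, p ≤ p' → ∀ ζ', ∃ ζ, ζ' ≤ ζ ∧ ∃ x : (l : Fin a) → T₀ l,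
    p' ≤ x ∧ (∀ l, (x l : Node K).len = ζ) ∧
    ∃ Y : B → (l : Fin d) → T l → T l, Ext r ζ' ζ (fun b y => Φ ζ b y ∧ c x y ∈ V b) Y

/-- `x₀` kills `r` from the level `ζ'` on -/
def KilledG (c : ((l : Fin a) → T₀ l) → ((l : Fin d) → T l) → ι)
    (Φ : K → B → ((l : Fin d) → T l) → Prop) (V : B → Set ι) (x₀ : (l : Fin a) → T₀ l)
    (r : B → (l : Fin d) → T l) (ζ' : K) : Prop :=
  ∀ ζ, ζ' ≤ ζ → ∀ x : (l : Fin a) → T₀ l, x₀ ≤ x → (∀ l, (x l : Node K).len = ζ) →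
    ∀ Y : B → (l : Fin d) → T l → T l, ¬ Ext r ζ' ζ (fun b y => Φ ζ b y ∧ c x y ∈ V b) Y

theorem KilledG.mono {c : ((l : Fin a) → T₀ l) → ((l : Fin d) → T l) → ι}
    {Φ : K → B → ((l : Fin d) → T l) → Prop} {V : B → Set ι} {x₀ x₁ : (l : Fin a) → T₀ l}
    {r : B → (l : Fin d) → T l} {ζ' : K} (h : KilledG c Φ V x₀ r ζ') (hx : x₀ ≤ x₁) :
    KilledG c Φ V x₁ r ζ' :=
  fun ζ hζ x hx1 hxl Y => h ζ hζ x (hx.trans hx1) hxl Y

end defs

variable {κ : Cardinal.{0}} {a n : ℕ} {T₀ : Fin (a + 1) → Set (Node κ.ord.ToType)}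
  {T : Fin (n + 1) → Set (Node κ.ord.ToType)} {ι B : Type}

theorem closed_tuple (hκ : κ.IsRegular) {a : ℕ} {T₀ : Fin a → Set (Node κ.ord.ToType)}
    (h₀ : ∀ l, IsRegularTree (T₀ l)) : Closed κ ((l : Fin a) → T₀ l) := by
  intro C hne hch hcard
  have h : ∀ l, ∃ b, ∀ f ∈ C, f l ≤ b := by
    intro l
    obtain ⟨b, hb⟩ := closed_tree hκ (h₀ l) ((fun f : (l : Fin a) → T₀ l => f l) '' C)
      (hne.image _) (by
      rintro a ⟨x, hx, rfl⟩ b ⟨y, hy, rfl⟩ hab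
      rcases hch hx hy (fun h => hab (by rw [h])) with h | h
      · exact Or.inl (h l)
      · exact Or.inr (h l)) (lt_of_le_of_lt mk_image_le hcard)
    exact ⟨b, fun f hf => hb ⟨f, hf, rfl⟩⟩
  choose b hb using h
  exact ⟨b, fun f hf l => hb l f hf⟩

/-- **The new row is a tuple of branches.** -/
theorem branch_of_goodG (hκ : κ.IsRegular) (h₀ : ∀ l, IsRegularTree (T₀ l))
    (c : ((l : Fin (a + 1)) → T₀ l) → ((l : Fin (n + 1)) → T l) → ι)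
    (Φ : κ.ord.ToType → B → ((l : Fin (n + 1)) → T l) → Prop) (V : B → Set ι)
    (p : (l : Fin (a + 1)) → T₀ l) (r : B → (l : Fin (n + 1)) → T l)
    (hg : StepGoodG c Φ V p r) :
    ∃ x : κ.ord.ToType → (l : Fin (a + 1)) → T₀ l,
      (∀ ζ l, (x ζ l : Node κ.ord.ToType).len = ζ) ∧
      (∀ ζ ξ, ζ ≤ ξ → x ζ ≤ x ξ) ∧
      (∀ l ζ, (p l : Node κ.ord.ToType).len ≤ ζ → p l ≤ x ζ l) ∧
      Full (fun ζ b y => Φ ζ b y ∧ c (x ζ) y ∈ V b) r := by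
  classical
  obtain ⟨G, hG⟩ := closed_seq hκ.aleph0_le (closed_tuple hκ h₀)
    (ι := κ.ord.ToType) (fun ζ => Cardinal.mk_Iio_toType_ord_lt ζ)
    (fun ζ' x => ∃ ζ, ζ' ≤ ζ ∧ (∀ l, (x l : Node κ.ord.ToType).len = ζ) ∧
      ∃ Y : B → (l : Fin (n + 1)) → T l → T l, Ext r ζ' ζ
        (fun b y => Φ ζ b y ∧ c x y ∈ V b) Y) p (by
      intro ζ' p' hp'
      obtain ⟨ζ, hζ, x, hx, hxl, Y, hY⟩ := hg p' hp' ζ'
      exact ⟨x, hx, ζ, hζ, hxl, Y, hY⟩)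
  have hGmono : ∀ η ζ, η ≤ ζ → G η ≤ G ζ := by
    intro η ζ h
    rcases eq_or_lt_of_le h with h | h
    · rw [h]
    · exact (hG ζ).1 η h
  have hlen : ∀ ζ l, ζ ≤ (G ζ l : Node κ.ord.ToType).len := fun ζ l => by
    obtain ⟨ζ₁, h1, h2, -⟩ := (hG ζ).2.2
    rw [h2 l]
    exact h1
  refine ⟨fun ζ l => ⟨(G ζ l : Node κ.ord.ToType).restr ζ,
    (h₀ l).down _ (G ζ l).2 _ (Node.restr_le (hlen ζ l))⟩, fun ζ l => rfl, fun ζ ξ h l => ?_,
    fun l ζ h => ?_, fun ζ' => ?_⟩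
  · exact Node.le_of_le_of_le ((Node.restr_le (hlen ζ l)).trans (hGmono ζ ξ h l))
      (Node.restr_le (hlen ξ l)) h
  · exact Node.le_restr ((hG ζ).2.1 l) h
  · obtain ⟨ζ, h1, h2, Y, hY⟩ := (hG ζ').2.2
    refine ⟨ζ, h1, Y, ?_⟩
    have h3 : (fun l => (⟨(G ζ l : Node κ.ord.ToType).restr ζ,
        (h₀ l).down _ (G ζ l).2 _ (Node.restr_le (hlen ζ l))⟩ : T₀ l)) = G ζ' := by
      funext l
      refine Subtype.ext ?_
      have h4 := restr_of_le (hGmono ζ' ζ h1 l)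
      rw [h2 l] at h4
      exact h4
    have h5 : (fun (b : B) (y : (l : Fin (n + 1)) → T l) => Φ ζ b y ∧
        c (fun l => (⟨(G ζ l : Node κ.ord.ToType).restr ζ,
          (h₀ l).down _ (G ζ l).2 _ (Node.restr_le (hlen ζ l))⟩ : T₀ l)) y ∈ V b) =
        fun b y => Φ ζ b y ∧ c (G ζ') y ∈ V b := by
      rw [h3]
    change Ext r ζ' ζ (fun (b : B) (y : (l : Fin (n + 1)) → T l) => Φ ζ b y ∧
        c (fun l => (⟨(G ζ l : Node κ.ord.ToType).restr ζ,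
          (h₀ l).down _ (G ζ l).2 _ (Node.restr_le (hlen ζ l))⟩ : T₀ l)) y ∈ V b) Y
    rw [h5]
    exact hY

end Pool.Agent.Helper39.HG
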