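import Pool.Agent.Helper39.HG.Def

/-!
# Two families of trees: strong subtrees from boxes
-/

set_option autoImplicit false

open Cardinal Set Helper2.HB Pool.Agent.Helper58.HL Pool.Agent.Helper39.HL
  Pool.Agent.Helper39.HT

namespace Pool.Agent.Helper39.HG

variable {κ : Cardinal.{0}} {a n : ℕ} {T₀ : Fin (a + 1) → Set (Node κ.ord.ToType)}
  {T : Fin (n + 1) → Set (Node κ.ord.ToType)} {ι : Type}

/-- the conclusion of the Halpern-Lauchli theorem for `c`, through `t₀` and `t` -/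
def HomogeneousG (c : ((l : Fin (a + 1)) → T₀ l) → ((l : Fin (n + 1)) → T l) → ι)
    (t₀ : (l : Fin (a + 1)) → T₀ l) (t : (l : Fin (n + 1)) → T l) : Prop :=
  ∃ A : Set κ.ord.ToType, (∀ a, ∃ ζ ∈ A, a < ζ) ∧
    ∃ (T₀' : Fin (a + 1) → Set (Node κ.ord.ToType))
      (T' : Fin (n + 1) → Set (Node κ.ord.ToType)) (i : ι),
    (∀ l, (t₀ l : Node κ.ord.ToType) ∈ T₀' l ∧ IsStrongSubtree (T₀ l) A (T₀' l) ∧
      ((∀ u ∈ T₀ l, u.len ∈ A → Splits (T₀ l) u) → IsRegularTree (T₀' l))) ∧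
    (∀ l, (t l : Node κ.ord.ToType) ∈ T' l ∧ IsStrongSubtree (T l) A (T' l) ∧
      ((∀ u ∈ T l, u.len ∈ A → Splits (T l) u) → IsRegularTree (T' l))) ∧
    ∀ ζ ∈ A, {j | ∃ (x : (l : Fin (a + 1)) → T₀ l) (y : (l : Fin (n + 1)) → T l),
      (∀ l, (x l : Node κ.ord.ToType) ∈ T₀' l ∧ (x l : Node κ.ord.ToType).len = ζ) ∧
      (∀ l, (y l : Node κ.ord.ToType) ∈ T' l ∧ (y l : Node κ.ord.ToType).len = ζ) ∧
      c x y = j} = {i}

/-- Boxes for all families give strong subtrees. -/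
theorem homogeneousG_of_boxes (hκ : κ.IsRegular) (h₀ : ∀ l, IsRegularTree (T₀ l))
    (hT : ∀ l, IsRegularTree (T l))
    (c : ((l : Fin (a + 1)) → T₀ l) → ((l : Fin (n + 1)) → T l) → ι)
    (s₀ : (l : Fin (a + 1)) → T₀ l) (s : (l : Fin (n + 1)) → T l) (i : ι)
    (hbox : AllBoxesG c s₀ s {i}) : HomogeneousG c s₀ s := by
  classical
  have : NoMaxOrder κ.ord.ToType := Cardinal.noMaxOrder hκ.aleph0_le
  have hbox' : ∀ (P : (l : Fin (a + 1)) → Set (T₀ l)) (Q : (l : Fin (n + 1)) → Set (T l)),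
      (∀ l, #(P l) < κ ∧ ∀ p ∈ P l, s₀ l ≤ p) → (∀ l, #(Q l) < κ ∧ ∀ q ∈ Q l, s l ≤ q) →
      (boxG c P Q {i}).Nonempty := by
    intro P Q hP hQ
    exact hbox P Q (by simpa using hP) (by simpa using hQ)
  have hmono : ∀ (P P' : (l : Fin (a + 1)) → Set (T₀ l)) (Q Q' : (l : Fin (n + 1)) → Set (T l)),
      (∀ l, P l ⊆ P' l) → (∀ l, Q l ⊆ Q' l) → boxG c P' Q' {i} ⊆ boxG c P Q {i} := by
    rintro P P' Q Q' hP hQ ζ ⟨x, y, hx, hy, hxy⟩
    exact ⟨x, y, fun l p hp => hx l p (hP l hp), fun l q hq => hy l q (hQ l hq),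
      fun p q hp hq => hxy p q (fun l => hP l (hp l)) (fun l => hQ l (hq l))⟩
  let F : Filter κ.ord.ToType :=
    { sets := {U | ∃ (P : (l : Fin (a + 1)) → Set (T₀ l)) (Q : (l : Fin (n + 1)) → Set (T l)),
        (∀ l, #(P l) < κ ∧ ∀ p ∈ P l, s₀ l ≤ p) ∧ (∀ l, #(Q l) < κ ∧ ∀ q ∈ Q l, s l ≤ q) ∧
        boxG c P Q {i} ⊆ U}
      univ_sets := by
        have hpos : (0 : Cardinal) < κ := lt_of_lt_of_le aleph0_pos hκ.aleph0_le
        refine ⟨fun _ => ∅, fun _ => ∅, fun l => ⟨?_, fun p hp => absurd hp (notMem_empty p)⟩,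
          fun l => ⟨?_, fun p hp => absurd hp (notMem_empty p)⟩, subset_univ _⟩
        · simpa using hpos
        · simpa using hpos
      sets_of_superset := by
        rintro U V ⟨P, Q, h1, h2, h3⟩ hUV
        exact ⟨P, Q, h1, h2, h3.trans hUV⟩
      inter_sets := by
        rintro U V ⟨P, Q, h1, h2, h3⟩ ⟨P', Q', h1', h2', h3'⟩
        refine ⟨fun l => P l ∪ P' l, fun l => Q l ∪ Q' l, fun l => ⟨?_, ?_⟩,
          fun l => ⟨?_, ?_⟩, subset_inter ?_ ?_⟩
        · exact lt_of_le_of_lt (Cardinal.mk_union_le _ _)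
            (Cardinal.add_lt_of_lt hκ.aleph0_le (h1 l).1 (h1' l).1)
        · rintro p (hp | hp)
          · exact (h1 l).2 p hp
          · exact (h1' l).2 p hp
        · exact lt_of_le_of_lt (Cardinal.mk_union_le _ _)
            (Cardinal.add_lt_of_lt hκ.aleph0_le (h2 l).1 (h2' l).1)
        · rintro p (hp | hp)
          · exact (h2 l).2 p hp
          · exact (h2' l).2 p hp
        · exact (hmono _ _ _ _ (fun l => subset_union_left) (fun l => subset_union_left)).trans h3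
        · exact (hmono _ _ _ _ (fun l => subset_union_right)
            (fun l => subset_union_right)).trans h3' }
  have hmem : ∀ U, U ∈ F ↔ ∃ (P : (l : Fin (a + 1)) → Set (T₀ l))
      (Q : (l : Fin (n + 1)) → Set (T l)), (∀ l, #(P l) < κ ∧ ∀ p ∈ P l, s₀ l ≤ p) ∧
        (∀ l, #(Q l) < κ ∧ ∀ q ∈ Q l, s l ≤ q) ∧ boxG c P Q {i} ⊆ U := fun U => Iff.rfl
  have hne : F.NeBot := by
    rw [Filter.neBot_iff, Ne, ← Filter.empty_mem_iff_bot, hmem]
    rintro ⟨P, Q, h1, h2, h3⟩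
    obtain ⟨ζ, hζ⟩ := hbox' P Q h1 h2
    exact h3 hζ
  have htail : ∀ a, Ioi a ∈ F := by
    intro a'
    obtain ⟨b, hb⟩ := exists_gt (max a' (s 0 : Node κ.ord.ToType).len)
    obtain ⟨r, hr, hrl⟩ := exists_level (hT 0) (s 0) b ((le_max_right _ _).trans hb.le)
    have h0' : (0 : Cardinal) < κ := lt_of_lt_of_le aleph0_pos hκ.aleph0_le
    have h1' : (1 : Cardinal) < κ := lt_of_lt_of_le one_lt_aleph0 hκ.aleph0_le
    rw [hmem]
    refine ⟨fun _ => ∅, fun l => {u | (u : Node κ.ord.ToType) = (r : Node κ.ord.ToType) ∧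
      s l ≤ u}, fun l => ⟨by simpa using h0', fun p hp => absurd hp (notMem_empty p)⟩,
      fun l => ⟨?_, fun q hq => hq.2⟩, ?_⟩
    · refine lt_of_le_of_lt ?_ h1'
      rw [Cardinal.mk_le_one_iff_set_subsingleton]
      rintro u ⟨hu, -⟩ v ⟨hv, -⟩
      exact Subtype.ext (hu.trans hv.symm)
    · rintro ζ ⟨x, y, -, hy, -⟩
      have h1 := hy 0 r ⟨rfl, hr⟩
      have h3 : b ≤ ζ := by
        rw [← h1.2, ← hrl]
        exact (show (r : Node κ.ord.ToType) ≤ (y 0 r : Node κ.ord.ToType) from h1.1).1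
      exact ((le_max_left _ _).trans_lt hb).trans_le h3
  let f : Fin (a + 1) ⊕ Fin (n + 1) ≃ Fin ((a + 1) + (n + 1)) := finSumFinEquiv
  let Tm : Fin (a + 1) ⊕ Fin (n + 1) → Set (Node κ.ord.ToType) := Sum.elim T₀ T
  let Ts : Fin ((a + 1) + (n + 1)) → Set (Node κ.ord.ToType) := fun l => Tm (f.symm l)
  have hTs0 : ∀ l, Ts (f (Sum.inl l)) = T₀ l := fun l => by
    change Tm (f.symm (f (Sum.inl l))) = T₀ l
    rw [Equiv.symm_apply_apply]
    rfl
  have hTs1 : ∀ l, Ts (f (Sum.inr l)) = T l := fun l => by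
    change Tm (f.symm (f (Sum.inr l))) = T l
    rw [Equiv.symm_apply_apply]
    rfl
  have hTs : ∀ l, IsRegularTree (Ts l) := by
    intro l
    obtain ⟨z, rfl⟩ := f.surjective l
    rcases z with l | l
    · rw [hTs0]; exact h₀ l
    · rw [hTs1]; exact hT l
  have hm0 : ∀ (v : (l : Fin ((a + 1) + (n + 1))) → Ts l) (l : Fin (a + 1)),
      (v (f (Sum.inl l)) : Node κ.ord.ToType) ∈ T₀ l := fun v l => by
    exact (hTs0 l).subset (v (f (Sum.inl l))).2
  have hm1 : ∀ (v : (l : Fin ((a + 1) + (n + 1))) → Ts l) (l : Fin (n + 1)),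
      (v (f (Sum.inr l)) : Node κ.ord.ToType) ∈ T l := fun v l => by
    exact (hTs1 l).subset (v (f (Sum.inr l))).2
  let cs : ((l : Fin ((a + 1) + (n + 1))) → Ts l) → ι := fun v =>
    c (fun l => ⟨(v (f (Sum.inl l)) : Node κ.ord.ToType), hm0 v l⟩)
      (fun l => ⟨(v (f (Sum.inr l)) : Node κ.ord.ToType), hm1 v l⟩)
  -- a tuple from two tuples
  have hpair : ∀ (x : (l : Fin (a + 1)) → T₀ l) (y : (l : Fin (n + 1)) → T l),
      ∃ v : (l : Fin ((a + 1) + (n + 1))) → Ts l,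
        (∀ l, (v (f (Sum.inl l)) : Node κ.ord.ToType) = x l) ∧
        (∀ l, (v (f (Sum.inr l)) : Node κ.ord.ToType) = y l) := by
    intro x y
    let X : (z : Fin (a + 1) ⊕ Fin (n + 1)) → Tm z := fun z => Sum.rec (motive := fun z => Tm z)
      x y z
    have htr : ∀ z z' : Fin (a + 1) ⊕ Fin (n + 1), z = z' →
        (X z : Node κ.ord.ToType) = X z' := by
      rintro z z' rfl; rfl
    exact ⟨fun l => X (f.symm l), fun l => htr _ _ (f.symm_apply_apply _),
      fun l => htr _ _ (f.symm_apply_apply _)⟩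
  obtain ⟨ss, hss0, hss1⟩ := hpair s₀ s
  obtain ⟨A, -, hA, T', hT', hc⟩ := strong_of_boxes_fin hκ hTs F htail cs ss i (by
    intro J hJ p hp
    rw [hmem]
    refine ⟨fun l => {u | ∃ j : J (f (Sum.inl l)), (u : Node κ.ord.ToType) =
      p (f (Sum.inl l)) j}, fun l => {u | ∃ j : J (f (Sum.inr l)), (u : Node κ.ord.ToType) =
      p (f (Sum.inr l)) j}, fun l => ⟨?_, ?_⟩, fun l => ⟨?_, ?_⟩, ?_⟩
    · refine lt_of_le_of_lt ?_ (hJ (f (Sum.inl l)))
      choose g hg using fun u : {u : T₀ l | ∃ j : J (f (Sum.inl l)),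
        (u : Node κ.ord.ToType) = p (f (Sum.inl l)) j} => u.2
      refine Cardinal.mk_le_of_injective (f := g) ?_
      intro u v huv
      refine Subtype.ext (Subtype.ext ?_)
      rw [hg u, hg v, huv]
    · rintro u ⟨j, hj⟩
      have h1 : (ss (f (Sum.inl l)) : Node κ.ord.ToType) ≤ p (f (Sum.inl l)) j :=
        hp (f (Sum.inl l)) j
      rw [hss0, ← hj] at h1
      exact h1
    · refine lt_of_le_of_lt ?_ (hJ (f (Sum.inr l)))
      choose g hg using fun u : {u : T l | ∃ j : J (f (Sum.inr l)),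
        (u : Node κ.ord.ToType) = p (f (Sum.inr l)) j} => u.2
      refine Cardinal.mk_le_of_injective (f := g) ?_
      intro u v huv
      refine Subtype.ext (Subtype.ext ?_)
      rw [hg u, hg v, huv]
    · rintro u ⟨j, hj⟩
      have h1 : (ss (f (Sum.inr l)) : Node κ.ord.ToType) ≤ p (f (Sum.inr l)) j :=
        hp (f (Sum.inr l)) j
      rw [hss1, ← hj] at h1
      exact h1
    · rintro ζ ⟨x, y, hx, hy, hxy⟩
      let X : (z : Fin (a + 1) ⊕ Fin (n + 1)) → Tm z → Tm z := fun z =>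
        Sum.rec (motive := fun z => Tm z → Tm z) x y z
      have htr : ∀ (z z' : Fin (a + 1) ⊕ Fin (n + 1)), z = z' → ∀ (u : Tm z) (u' : Tm z'),
          (u : Node κ.ord.ToType) = u' → (X z u : Node κ.ord.ToType) = X z' u' := by
        rintro z z' rfl u u' hu
        rw [Subtype.ext hu]
      have hX : ∀ (z : Fin (a + 1) ⊕ Fin (n + 1)) (l : Fin ((a + 1) + (n + 1))), f z = l →
          ∀ (j : J l) (u : Tm z), (u : Node κ.ord.ToType) = p l j →
            u ≤ X z u ∧ (X z u : Node κ.ord.ToType).len = ζ := by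
        rintro (z | z) l rfl j u hu
        · exact hx z u ⟨j, hu⟩
        · exact hy z u ⟨j, hu⟩
      refine ⟨fun l j => X (f.symm l) (p l j), fun l j =>
        hX (f.symm l) l (f.apply_symm_apply l) j (p l j) rfl, fun g => ?_⟩
      have h1 := hxy (fun l => ⟨(p (f (Sum.inl l)) (g _) : Node κ.ord.ToType),
          hm0 (fun l => p l (g l)) l⟩) (fun l => ⟨(p (f (Sum.inr l)) (g _) :
          Node κ.ord.ToType), hm1 (fun l => p l (g l)) l⟩)
        (fun l => ⟨g _, rfl⟩) (fun l => ⟨g _, rfl⟩)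
      have h2 : cs (fun l => X (f.symm l) (p l (g l))) =
          c (fun l => x l ⟨(p (f (Sum.inl l)) (g _) : Node κ.ord.ToType),
            hm0 (fun l => p l (g l)) l⟩) (fun l => y l ⟨(p (f (Sum.inr l)) (g _) :
              Node κ.ord.ToType), hm1 (fun l => p l (g l)) l⟩) := by
        have e0 : (fun l => (⟨(X (f.symm (f (Sum.inl l))) (p (f (Sum.inl l)) (g _)) :
            Node κ.ord.ToType), hm0 (fun l => X (f.symm l) (p l (g l))) l⟩ : T₀ l)) =
            fun l => x l ⟨(p (f (Sum.inl l)) (g _) : Node κ.ord.ToType),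
              hm0 (fun l => p l (g l)) l⟩ := by
          funext l
          refine Subtype.ext ?_
          exact htr _ (Sum.inl l) (f.symm_apply_apply _) _ ⟨_, hm0 (fun l => p l (g l)) l⟩ rfl
        have e1 : (fun l => (⟨(X (f.symm (f (Sum.inr l))) (p (f (Sum.inr l)) (g _)) :
            Node κ.ord.ToType), hm1 (fun l => X (f.symm l) (p l (g l))) l⟩ : T l)) =
            fun l => y l ⟨(p (f (Sum.inr l)) (g _) : Node κ.ord.ToType),
              hm1 (fun l => p l (g l)) l⟩ := by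
          funext l
          refine Subtype.ext ?_
          exact htr _ (Sum.inr l) (f.symm_apply_apply _) _ ⟨_, hm1 (fun l => p l (g l)) l⟩ rfl
        change c (fun l => (⟨(X (f.symm (f (Sum.inl l))) (p (f (Sum.inl l)) (g _)) :
            Node κ.ord.ToType), hm0 (fun l => X (f.symm l) (p l (g l))) l⟩ : T₀ l))
          (fun l => (⟨(X (f.symm (f (Sum.inr l))) (p (f (Sum.inr l)) (g _)) :
            Node κ.ord.ToType), hm1 (fun l => X (f.symm l) (p l (g l))) l⟩ : T l)) = _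
        rw [e0, e1]
      rw [h2]
      exact h1) univ Filter.univ_mem
  have hS0 : ∀ l, IsStrongSubtree (T₀ l) A (T' (f (Sum.inl l))) ∧
      ((∀ u ∈ T₀ l, u.len ∈ A → Splits (T₀ l) u) → IsRegularTree (T' (f (Sum.inl l)))) := by
    intro l
    have h1 := (hT' (f (Sum.inl l))).2.1
    have h2 := (hT' (f (Sum.inl l))).2.2.2
    rw [hTs0] at h1 h2
    exact ⟨h1, h2⟩
  have hS1 : ∀ l, IsStrongSubtree (T l) A (T' (f (Sum.inr l))) ∧
      ((∀ u ∈ T l, u.len ∈ A → Splits (T l) u) → IsRegularTree (T' (f (Sum.inr l)))) := by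
    intro l
    have h1 := (hT' (f (Sum.inr l))).2.1
    have h2 := (hT' (f (Sum.inr l))).2.2.2
    rw [hTs1] at h1 h2
    exact ⟨h1, h2⟩
  refine ⟨A, hA, fun l => T' (f (Sum.inl l)), fun l => T' (f (Sum.inr l)), i,
    fun l => ⟨?_, hS0 l⟩, fun l => ⟨?_, hS1 l⟩, fun ζ hζ => ?_⟩
  · have h1 := (hT' (f (Sum.inl l))).1
    rw [hss0] at h1
    exact h1
  · have h1 := (hT' (f (Sum.inr l))).1
    rw [hss1] at h1
    exact h1
  · ext j
    constructor
    · rintro ⟨x, y, hx, hy, rfl⟩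
      obtain ⟨v, hv0, hv1⟩ := hpair x y
      have h1 : cs v = c x y := by
        change c (fun l => ⟨(v (f (Sum.inl l)) : Node κ.ord.ToType), hm0 v l⟩)
          (fun l => ⟨(v (f (Sum.inr l)) : Node κ.ord.ToType), hm1 v l⟩) = c x y
        have e0 : (fun l => (⟨(v (f (Sum.inl l)) : Node κ.ord.ToType), hm0 v l⟩ : T₀ l)) = x :=
          funext fun l => Subtype.ext (hv0 l)
        have e1 : (fun l => (⟨(v (f (Sum.inr l)) : Node κ.ord.ToType), hm1 v l⟩ : T l)) = y :=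
          funext fun l => Subtype.ext (hv1 l)
        rw [e0, e1]
      rw [← h1]
      refine hc ζ hζ v fun l => ?_
      obtain ⟨z, rfl⟩ := f.surjective l
      rcases z with l | l
      · rw [hv0]; exact hx l
      · rw [hv1]; exact hy l
    · rintro rfl
      choose v hv hvl using fun l => (hT' l).2.2.1 ζ
      have hvT : ∀ l, v l ∈ Ts l := fun l => (hT' l).2.1.subset (hv l)
      exact ⟨fun l => ⟨v (f (Sum.inl l)), hm0 (fun l => ⟨v l, hvT l⟩) l⟩,
        fun l => ⟨v (f (Sum.inr l)), hm1 (fun l => ⟨v l, hvT l⟩) l⟩,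
        fun l => ⟨hv _, hvl _⟩, fun l => ⟨hv _, hvl _⟩,
        hc ζ hζ (fun l => ⟨v l, hvT l⟩) fun l => ⟨hv l, hvl l⟩⟩

/-- Boxes of one colour for all families give strong subtrees. -/
theorem AllBoxesG.homogeneous (hκ : κ.IsRegular) (h₀ : ∀ l, IsRegularTree (T₀ l))
    (hT : ∀ l, IsRegularTree (T l))
    {c : ((l : Fin (a + 1)) → T₀ l) → ((l : Fin (n + 1)) → T l) → ι}
    {t₀ : (l : Fin (a + 1)) → T₀ l} {t : (l : Fin (n + 1)) → T l} {S : Set ι}
    (hS : ∀ i ∈ S, ∀ j ∈ S, i = j) (h : AllBoxesG c t₀ t S) : HomogeneousG c t₀ t := by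
  have h1 : (1 : Cardinal) < #κ.ord.ToType := by
    rw [Cardinal.mk_ord_toType]
    exact lt_of_lt_of_le one_lt_aleph0 hκ.aleph0_le
  obtain ⟨ζ, x, y, -, -, hxy⟩ := h (fun l => {t₀ l}) (fun l => {t l})
    (fun l => ⟨by rw [Cardinal.mk_singleton]; exact h1, by rintro q rfl; exact le_rfl⟩)
    (fun l => ⟨by rw [Cardinal.mk_singleton]; exact h1, by rintro q rfl; exact le_rfl⟩)
  have hi := hxy t₀ t (fun l => rfl) (fun l => rfl)
  refine homogeneousG_of_boxes hκ h₀ hT c t₀ t (c (fun l => x l (t₀ l)) (fun l => y l (t l)))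
    (fun P Q hP hQ => ?_)
  obtain ⟨ζ', x', y', hx', hy', hxy'⟩ := h P Q hP hQ
  exact ⟨ζ', x', y', hx', hy', fun p q hp hq => hS _ (hxy' p q hp hq) _ hi⟩

end Pool.Agent.Helper39.HG
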