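import Pool.Agent.Helper39.HG.Step
import Pool.Agent.Helper39.HG.Hom

/-!
# Two families of trees: homogeneous strong subtrees or all matrices
-/

set_option autoImplicit false

open Cardinal Set Helper2.HB Pool.Agent.Helper58.HL Pool.Agent.Helper39.HL
  Pool.Agent.Helper39.HT

namespace Pool.Agent.Helper39.HG

variable {κ : Cardinal.{0}} {a n : ℕ} {T₀ : Fin (a + 1) → Set (Node κ.ord.ToType)}
  {T : Fin (n + 1) → Set (Node κ.ord.ToType)} {ι : Type}

/-- homogeneous strong subtrees, or all matrices are avoided -/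
theorem matrixG_ne (hκ : κ.IsInaccessible) (hHL : HLProp κ (n + 1)) (hHL0 : HLProp κ (a + 1))
    (h₀ : ∀ l, IsRegularTree (T₀ l)) (hT : ∀ l, IsRegularTree (T l))
    (c : ((l : Fin (a + 1)) → T₀ l) → ((l : Fin (n + 1)) → T l) → ι)
    (t₀ : (l : Fin (a + 1)) → T₀ l) (t : (l : Fin (n + 1)) → T l)
    (hno : ∀ (s₀ : (l : Fin (a + 1)) → T₀ l) (s : (l : Fin (n + 1)) → T l), t₀ ≤ s₀ → t ≤ s →
      ¬ HomogeneousG c s₀ s) (m : ℕ) (B : Type) (hB : #B < κ)
    (P : Fin m → (l : Fin (a + 1)) → T₀ l) (hP : ∀ i, t₀ ≤ P i)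
    (R : B → (l : Fin (n + 1)) → T l) (hR : ∀ b, t ≤ R b) (e : Fin m → B → ι) :
    ∃ (x : Fin m → κ.ord.ToType → (l : Fin (a + 1)) → T₀ l) (s : B → (l : Fin (n + 1)) → T l),
      (∀ i ζ l, (x i ζ l : Node κ.ord.ToType).len = ζ) ∧ (∀ i ζ ξ, ζ ≤ ξ → x i ζ ≤ x i ξ) ∧
      (∀ i l ζ, (P i l : Node κ.ord.ToType).len ≤ ζ → P i l ≤ x i ζ l) ∧
      (∀ b, R b ≤ s b) ∧ Full (fun ζ b y => ∀ i, c (x i ζ) y ≠ e i b) s := by
  classical
  have hB' : #(Option B) < κ := by
    rw [Cardinal.mk_option]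
    exact Cardinal.add_lt_of_lt hκ.aleph0_lt.le hB (lt_trans one_lt_aleph0 hκ.aleph0_lt)
  obtain ⟨x, s, h1, h2, h3, h4, h5⟩ := matrixG hκ hHL hHL0 h₀ hT (B := Option B) hB'
    c (fun b => b.elim t R) m P (fun i b => b.elim {c t₀ t}ᶜ (fun b => {e i b}ᶜ)) (by
      intro i b p s hp hs hall
      refine hno p s ((hP i).trans hp) (fun l => ?_)
        (AllBoxesG.homogeneous hκ.isRegular h₀ hT ?_ hall)
      · cases b with
        | none => exact hs l
        | some b => exact (hR b l).trans (hs l)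
      · cases b with
        | none =>
          intro i hi j hj
          simp only [Option.elim_none, compl_compl, mem_singleton_iff] at hi hj
          rw [hi, hj]
        | some b =>
          intro i hi j hj
          simp only [Option.elim_some, compl_compl, mem_singleton_iff] at hi hj
          rw [hi, hj])
  refine ⟨x, fun b => s (some b), h1, h2, h3, fun b l => h4 (some b) l, fun ζ' => ?_⟩
  obtain ⟨ζ, hζ, Y, hY1, hY2⟩ := h5 ζ'
  exact ⟨ζ, hζ, fun b => Y (some b), fun b => hY1 (some b), fun b u hu i => hY2 (some b) u hu i⟩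

end Pool.Agent.Helper39.HG
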