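import Pool.Agent.Helper39.HG.Hom

/-!
# Patterns with rows of tuples: definitions and the avoidance argument
-/

set_option autoImplicit false

open Cardinal Set Helper2.HB Pool.Agent.Helper58.HL Pool.Agent.Helper39.HL
  Pool.Agent.Helper39.HT

namespace Pool.Agent.Helper39.HG

section defs

variable {K : Type} [LinearOrder K] {a d : ℕ} {S : Fin a → Set (Node K)}
  {T : Fin d → Set (Node K)} {ι : Type}

/-- The levels `ζ` of the boxes: there are tuples `x j ≥ p j` (`j ∈ A`) of nodes of length `ζ` and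
extensions `y l q` of all `q ∈ Q l` (`l < d`) of length `ζ` such that the colour of
`(x j, (y l (q l))_l)` is in `F j` for all `j` and all `q l ∈ Q l`. -/
def rowLevels (c : ((l : Fin a) → S l) → ((l : Fin d) → T l) → ι) {A : Type}
    (p : A → (l : Fin a) → S l) (Q : (l : Fin d) → Set (T l)) (F : A → Set ι) : Set K :=
  {ζ | ∃ (x : A → (l : Fin a) → S l) (y : (l : Fin d) → T l → T l),
    (∀ j, p j ≤ x j ∧ ∀ l, (x j l : Node K).len = ζ) ∧
    (∀ l, ∀ q ∈ Q l, q ≤ y l q ∧ (y l q : Node K).len = ζ) ∧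
    ∀ (j : A) (q : (l : Fin d) → T l), (∀ l, q l ∈ Q l) → c (x j) (fun l => y l (q l)) ∈ F j}

/-- The pattern `F` is good above the tuples `P j` (`j ∈ A`) and `r`: there are tuples `p j ≥ P j`
and `s ≥ r` such that for all tuples `p' j ≥ p j` and all families `Q l` of fewer than `κ`
extensions of `s l` the set of the levels of the boxes for `F` is large. -/
def GoodG (Large : Set K → Prop) (c : ((l : Fin a) → S l) → ((l : Fin d) → T l) → ι)
    {A : Type} (P : A → (l : Fin a) → S l) (r : (l : Fin d) → T l) (F : A → Set ι) : Prop :=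
  ∃ (p : A → (l : Fin a) → S l) (s : (l : Fin d) → T l), P ≤ p ∧ r ≤ s ∧
    ∀ (p' : A → (l : Fin a) → S l) (Q : (l : Fin d) → Set (T l)), p ≤ p' →
      (∀ l, #(Q l) < #K ∧ ∀ q ∈ Q l, s l ≤ q) → Large (rowLevels c p' Q F)

theorem rowLevels_anti {c : ((l : Fin a) → S l) → ((l : Fin d) → T l) → ι} {A : Type}
    {p p' : A → (l : Fin a) → S l} {Q : (l : Fin d) → Set (T l)} {F : A → Set ι}
    (hp : p ≤ p') : rowLevels c p' Q F ⊆ rowLevels c p Q F := by
  rintro ζ ⟨x, y, h1, h2, h3⟩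
  exact ⟨x, y, fun j => ⟨(hp j).trans (h1 j).1, (h1 j).2⟩, h2, h3⟩

theorem GoodG.of_le {Large : Set K → Prop}
    {c : ((l : Fin a) → S l) → ((l : Fin d) → T l) → ι} {A : Type}
    {P P' : A → (l : Fin a) → S l} {r r' : (l : Fin d) → T l} {F : A → Set ι}
    (h : GoodG Large c P' r' F) (hP : P ≤ P') (hr : r ≤ r') : GoodG Large c P r F := by
  obtain ⟨p, s, h1, h2, h3⟩ := h
  exact ⟨p, s, hP.trans h1, hr.trans h2, h3⟩

end defs

variable {κ : Cardinal.{0}} {a n : ℕ} {S : Fin (a + 1) → Set (Node κ.ord.ToType)}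
  {T : Fin (n + 1) → Set (Node κ.ord.ToType)} {ι : Type}

/-- `p'` kills all tuples of nodes of length less than `ζ` above the given ones -/
def ReqG (c : ((l : Fin (a + 1)) → S l) → ((l : Fin (n + 1)) → T l) → ι) {Θ R C E : Type}
    (f : E → Θ → Fin (a + 1) → R) (g : E → Fin (n + 1) → C) (F : E → Θ → Set ι)
    (q₀ : (l : Fin (n + 1)) → C → T l) (ζ : κ.ord.ToType)
    (p' : R → (l : Fin (a + 1)) → S l) : Prop :=
  ∀ (e : E) (r : (l : Fin (n + 1)) → T l),
    (∀ l, q₀ l (g e l) ≤ r l ∧ (r l : Node κ.ord.ToType).len < ζ) →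
    ∃ Q : (l : Fin (n + 1)) → Set (T l), (∀ l, #(Q l) < κ ∧ ∀ q ∈ Q l, r l ≤ q) ∧
      ¬ (rowLevels c (fun θ l => p' (f e θ l) l) Q (F e)).Nonempty

theorem exists_reqG (hκ : κ.IsRegular) (hlim : ∀ x < κ, 2 ^ x < κ)
    (hS : ∀ l, IsRegularTree (S l)) (hT : ∀ l, IsRegularTree (T l))
    (c : ((l : Fin (a + 1)) → S l) → ((l : Fin (n + 1)) → T l) → ι)
    {Θ R C E : Type} (hE : #E < κ) (f : E → Θ → Fin (a + 1) → R)
    (hf : ∀ e l, Function.Injective (fun θ => f e θ l))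
    (g : E → Fin (n + 1) → C) (F : E → Θ → Set ι) (p₀ : R → (l : Fin (a + 1)) → S l)
    (q₀ : (l : Fin (n + 1)) → C → T l)
    (hbad : ∀ e, ¬ GoodG Set.Nonempty c (fun θ l => p₀ (f e θ l) l)
      (fun l => q₀ l (g e l)) (F e))
    (ζ : κ.ord.ToType) (p : R → (l : Fin (a + 1)) → S l) (hp : p₀ ≤ p) :
    ∃ p', p ≤ p' ∧ (∀ m l, ζ ≤ (p' m l : Node κ.ord.ToType).len) ∧ ReqG c f g F q₀ ζ p' := by
  classical
  have hJ : #(E × {r : (l : Fin (n + 1)) → T l //
      ∀ l, (r l : Node κ.ord.ToType).len < ζ}) < κ := by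
    rw [Cardinal.mk_prod]
    simp only [Cardinal.lift_id]
    exact Cardinal.mul_lt_of_lt hκ.aleph0_le hE (card_lowtup hκ hlim hT ζ)
  obtain ⟨p1, hp1, hreq⟩ := (Closed.pi (J := R) (closed_tuple hκ hS)).meet hκ.aleph0_le hJ
    (fun (j : E × {r : (l : Fin (n + 1)) → T l // ∀ l, (r l : Node κ.ord.ToType).len < ζ})
      (p' : R → (l : Fin (a + 1)) → S l) => (∀ l, q₀ l (g j.1 l) ≤ j.2.1 l) →
        ∃ Q : (l : Fin (n + 1)) → Set (T l), (∀ l, #(Q l) < κ ∧ ∀ q ∈ Q l, j.2.1 l ≤ q) ∧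
        ¬ (rowLevels c (fun θ l => p' (f j.1 θ l) l) Q (F j.1)).Nonempty)
    (by
      intro j p1 p2 h12 h hle
      obtain ⟨Q, hQ1, hQ2⟩ := h hle
      exact ⟨Q, hQ1, fun h => hQ2 (h.mono (rowLevels_anti fun θ l => h12 _ l))⟩) p (by
      rintro ⟨e, r⟩ p1 hp1
      by_cases hle : ∀ l, q₀ l (g e l) ≤ r.1 l
      · have h1 := hbad e
        unfold GoodG at h1
        push Not at h1
        obtain ⟨p2, Q, h2, h3, h4⟩ := h1 (fun θ l => p1 (f e θ l) l) r.1
          (fun θ l => ((hp _).trans (hp1 _)) l) hle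
        refine ⟨fun m l => Function.extend (fun θ => f e θ l) (fun θ => p2 θ l)
          (fun m => p1 m l) m, fun m l => ?_, fun _ => ⟨Q, fun l => ⟨?_, (h3 l).2⟩, ?_⟩⟩
        · by_cases hm : ∃ θ, f e θ l = m
          · obtain ⟨θ, rfl⟩ := hm
            change p1 (f e θ l) l ≤ Function.extend (fun θ => f e θ l) (fun θ => p2 θ l)
              (fun m => p1 m l) (f e θ l)
            rw [show Function.extend (fun θ => f e θ l) (fun θ => p2 θ l) (fun m => p1 m l)
              (f e θ l) = p2 θ l from (hf e l).extend_apply _ _ θ]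
            exact h2 θ l
          · change p1 m l ≤ Function.extend (fun θ => f e θ l) (fun θ => p2 θ l)
              (fun m => p1 m l) m
            rw [Function.extend_apply' _ _ _ hm]
        · have h5 := (h3 l).1
          rwa [Cardinal.mk_ord_toType] at h5
        · have h6 : (fun (θ : Θ) (l : Fin (a + 1)) => Function.extend (fun θ => f e θ l)
              (fun θ => p2 θ l) (fun m => p1 m l) (f e θ l)) = p2 := by
            funext θ l
            exact (hf e l).extend_apply _ _ θ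
          rw [h6, h4]
          exact Set.not_nonempty_empty
      · exact ⟨p1, le_rfl, fun h => absurd h hle⟩)
  have h6 : ∀ m l, ∃ u : S l, p1 m l ≤ u ∧ (u : Node κ.ord.ToType).len =
      max ζ (p1 m l : Node κ.ord.ToType).len := fun m l =>
    exists_level (hS l) (p1 m l) _ (le_max_right _ _)
  choose p' hp'1 hp'2 using h6
  refine ⟨p', fun m l => (hp1 m l).trans (hp'1 m l),
    fun m l => by rw [hp'2]; exact le_max_left _ _, fun e r hr => ?_⟩
  obtain ⟨Q, hQ1, hQ2⟩ := hreq (e, ⟨r, fun l => (hr l).2⟩) (fun l => (hr l).1)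
  exact ⟨Q, hQ1, fun h => hQ2 (h.mono (rowLevels_anti fun θ l => hp'1 _ l))⟩

/-- **One final matrix without any of the patterns.** -/
theorem avoidPG (hκ : κ.IsInaccessible) (hHL : HLProp κ (n + 1))
    (hS : ∀ l, IsRegularTree (S l)) (hT : ∀ l, IsRegularTree (T l)) (hι : #ι < κ)
    (c : ((l : Fin (a + 1)) → S l) → ((l : Fin (n + 1)) → T l) → ι)
    {Θ R C E : Type} (hR : #R < κ) (hC : #C < κ) [Nonempty C] (hE : #E < κ)
    (f : E → Θ → Fin (a + 1) → R) (hf : ∀ e l, Function.Injective (fun θ => f e θ l))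
    (g : E → Fin (n + 1) → C) (F : E → Θ → Set ι) (p₀ : R → (l : Fin (a + 1)) → S l)
    (q₀ : (l : Fin (n + 1)) → C → T l)
    (hbad : ∀ e, ¬ GoodG Set.Nonempty c (fun θ l => p₀ (f e θ l) l)
      (fun l => q₀ l (g e l)) (F e)) :
    ∃ (ζ : κ.ord.ToType) (x : R → (l : Fin (a + 1)) → S l) (y : (l : Fin (n + 1)) → C → T l),
      (∀ m l, p₀ m l ≤ x m l ∧ (x m l : Node κ.ord.ToType).len = ζ) ∧
      (∀ l k, q₀ l k ≤ y l k ∧ (y l k : Node κ.ord.ToType).len = ζ) ∧
      ∀ e, ¬ ∀ θ : Θ, c (fun l => x (f e θ l) l) (fun l => y l (g e l)) ∈ F e θ := by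
  classical
  have hreg := hκ.isRegular
  have hlim : ∀ x < κ, 2 ^ x < κ := fun x hx => hκ.isStrongLimit.isStrongPrelimit hx
  have : NoMaxOrder κ.ord.ToType := Cardinal.noMaxOrder hreg.aleph0_le
  have hfin : #(Fin (n + 1)) < κ :=
    lt_of_lt_of_le (Cardinal.lt_aleph0_of_finite _) hreg.aleph0_le
  have hfina : #(Fin (a + 1)) < κ :=
    lt_of_lt_of_le (Cardinal.lt_aleph0_of_finite _) hreg.aleph0_le
  have hRF : #(R × Fin (a + 1)) < κ := by
    rw [Cardinal.mk_prod]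
    simp only [Cardinal.lift_id]
    exact Cardinal.mul_lt_of_lt hreg.aleph0_le hR hfina
  obtain ⟨G, hG⟩ := closed_seq hreg.aleph0_le (Closed.pi (J := R) (closed_tuple hreg hS))
    (ι := κ.ord.ToType) (fun ζ => Cardinal.mk_Iio_toType_ord_lt ζ)
    (fun ζ p' => (∀ m l, ζ ≤ (p' m l : Node κ.ord.ToType).len) ∧ ReqG c f g F q₀ ζ p') p₀
    (fun ζ p hp => exists_reqG hreg hlim hS hT c hE f hf g F p₀ q₀ hbad ζ p hp)
  have hGmono : ∀ η ζ, η ≤ ζ → G η ≤ G ζ := by
    intro η ζ h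
    rcases eq_or_lt_of_le h with h | h
    · rw [h]
    · exact (hG ζ).1 η h
  let x : R → κ.ord.ToType → (l : Fin (a + 1)) → S l := fun m ζ l =>
    ⟨(G ζ m l : Node κ.ord.ToType).restr ζ,
      (hS l).down _ (G ζ m l).2 _ (Node.restr_le ((hG ζ).2.2.1 m l))⟩
  have hxge : ∀ m ζ l (u : S l), u ≤ G ζ m l → (u : Node κ.ord.ToType).len ≤ ζ → u ≤ x m ζ l :=
    fun m ζ l u h1 h2 => Node.le_restr h1 h2
  have hι' : #((Fin (a + 1) → R) → (Fin (n + 1) → C) → ι) < κ := by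
    rw [← Cardinal.power_def]
    refine pow_lt hlim hreg.aleph0_le ?_ ?_
    · rw [← Cardinal.power_def]
      refine pow_lt hlim hreg.aleph0_le hι ?_
      rw [← Cardinal.power_def]
      exact pow_lt hlim hreg.aleph0_le hC hfin
    · rw [← Cardinal.power_def]
      exact pow_lt hlim hreg.aleph0_le hR hfina
  obtain ⟨s, e, hs, hbox⟩ := box_of_hl hκ hHL hT hC q₀ hι'
    (fun ζ Y m k => c (fun l => x (m l) ζ l) (fun l => Y l (k l)))
  have hrect : ∀ ε : E, ¬ ∀ θ : Θ, e (f ε θ) (g ε) ∈ F ε θ := by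
    intro ε hall
    obtain ⟨l₀, hl₀⟩ := exists_bound hreg hfin
      (fun l => (s l (g ε l) : Node κ.ord.ToType).len)
    obtain ⟨ζ₁, hζ₁⟩ := exists_gt l₀
    obtain ⟨Q, hQ1, hQ2⟩ := (hG ζ₁).2.2.2 ε (fun l => s l (g ε l))
      (fun l => ⟨hs l _, (hl₀ l).trans_lt hζ₁⟩)
    obtain ⟨η₂, hη₂⟩ := exists_bound hreg hRF
      (fun z => (G ζ₁ z.1 z.2 : Node κ.ord.ToType).len)
    obtain ⟨ζ, hζ, y, hy, hyc⟩ := hbox
      (fun l => {z | ∃ q ∈ Q l, z = Function.update (s l) (g ε l) q}) (by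
        intro l
        refine ⟨?_, ?_⟩
        · have h1 : #{z : C → T l | ∃ q ∈ Q l, z = Function.update (s l) (g ε l) q} ≤
              #(Q l) := by
            refine Cardinal.mk_le_of_surjective (f := fun z : Q l =>
              (⟨Function.update (s l) (g ε l) z, z, z.2, rfl⟩ :
                {z : C → T l | ∃ q ∈ Q l, z = Function.update (s l) (g ε l) q})) ?_
            rintro ⟨z, q, hq, rfl⟩
            exact ⟨⟨q, hq⟩, rfl⟩
          exact lt_of_le_of_lt h1 (hQ1 l).1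
        · rintro z ⟨q, hq, rfl⟩ k
          by_cases hk : k = g ε l
          · subst hk
            rw [Function.update_self]
            exact (hQ1 l).2 q hq
          · rw [Function.update_of_ne hk]) (max ζ₁ η₂)
    refine hQ2 ⟨ζ, fun θ l => x (f ε θ l) ζ l,
      fun l q => y l (Function.update (s l) (g ε l) q) (g ε l), fun θ => ⟨fun l => ?_,
      fun l => rfl⟩, fun l q hq => ?_, fun θ q hq => ?_⟩
    · refine hxge _ _ _ _ (hGmono ζ₁ ζ ((le_max_left _ _).trans hζ) _ _) ?_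
      exact (hη₂ (f ε θ l, l)).trans ((le_max_right _ _).trans hζ)
    · have h1 := hy l (Function.update (s l) (g ε l) q) ⟨q, hq, rfl⟩ (g ε l)
      rw [Function.update_self] at h1
      exact h1
    · have h1 := hyc (fun l => Function.update (s l) (g ε l) (q l)) (fun l => ⟨q l, hq l, rfl⟩)
      have h2 : c (fun l => x (f ε θ l) ζ l)
          (fun l => y l (Function.update (s l) (g ε l) (q l)) (g ε l)) = e (f ε θ) (g ε) :=
        congrFun (congrFun h1 (f ε θ)) (g ε)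
      change c (fun l => x (f ε θ l) ζ l)
          (fun l => y l (Function.update (s l) (g ε l) (q l)) (g ε l)) ∈ F ε θ
      rw [h2]
      exact hall θ
  obtain ⟨η₀, hη₀⟩ := exists_bound hreg hRF (fun z => (p₀ z.1 z.2 : Node κ.ord.ToType).len)
  obtain ⟨ζ, hζ, y, hy, hyc⟩ := hbox (fun l => {s l}) (by
      intro l
      refine ⟨?_, ?_⟩
      · rw [Cardinal.mk_singleton]
        exact lt_of_lt_of_le one_lt_aleph0 hreg.aleph0_le
      · rintro z rfl k
        exact le_rfl) η₀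
  refine ⟨ζ, fun m l => x m ζ l, fun l => y l (s l), fun m l => ⟨?_, rfl⟩, fun l k => ?_,
    fun ε hall => hrect ε fun θ => ?_⟩
  · exact hxge m ζ l _ ((hG ζ).2.1 m l) ((hη₀ (m, l)).trans hζ)
  · have h1 := hy l (s l) rfl k
    exact ⟨(hs l k).trans h1.1, h1.2⟩
  · have h1 := hyc s (fun l => rfl)
    have h2 : c (fun l => x (f ε θ l) ζ l) (fun l => y l (s l) (g ε l)) = e (f ε θ) (g ε) :=
      congrFun (congrFun h1 (f ε θ)) (g ε)
    rw [← h2]
    exact hall θ

/-- `avoidPG` for sets of columns -/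
theorem avoid_setsG (hκ : κ.IsInaccessible) (hHL : HLProp κ (n + 1))
    (hS : ∀ l, IsRegularTree (S l)) (hT : ∀ l, IsRegularTree (T l)) (hι : #ι < κ)
    (c : ((l : Fin (a + 1)) → S l) → ((l : Fin (n + 1)) → T l) → ι)
    {Θ R E : Type} (hR : #R < κ) (hE : #E < κ) (f : E → Θ → Fin (a + 1) → R)
    (hf : ∀ e l, Function.Injective (fun θ => f e θ l)) (F : E → Θ → Set ι)
    (p₀ : R → (l : Fin (a + 1)) → S l) (r : (l : Fin (n + 1)) → T l)
    (Q : (l : Fin (n + 1)) → Set (T l)) (hQ : ∀ l, #(Q l) < κ ∧ ∀ q ∈ Q l, r l ≤ q)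
    (hbad : ∀ e, ¬ GoodG Set.Nonempty c (fun θ l => p₀ (f e θ l) l) r (F e)) :
    ∃ (ζ : κ.ord.ToType) (x : R → (l : Fin (a + 1)) → S l)
      (y : (l : Fin (n + 1)) → T l → T l),
      (∀ m l, p₀ m l ≤ x m l ∧ (x m l : Node κ.ord.ToType).len = ζ) ∧
      (∀ l, ∀ q ∈ Q l, q ≤ y l q ∧ (y l q : Node κ.ord.ToType).len = ζ) ∧
      ∀ e (q : (l : Fin (n + 1)) → T l), (∀ l, q l ∈ Q l) →
        ¬ ∀ θ : Θ, c (fun l => x (f e θ l) l) (fun l => y l (q l)) ∈ F e θ := by
  classical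
  have hreg := hκ.isRegular
  have hlim : ∀ x < κ, 2 ^ x < κ := fun x hx => hκ.isStrongLimit.isStrongPrelimit hx
  have hfin : #(Fin (n + 1)) < κ :=
    lt_of_lt_of_le (Cardinal.lt_aleph0_of_finite _) hreg.aleph0_le
  have hC : #(Option (Σ l, Q l)) < κ := by
    rw [Cardinal.mk_option]
    refine Cardinal.add_lt_of_lt hreg.aleph0_le ?_
      (lt_of_lt_of_le one_lt_aleph0 hreg.aleph0_le)
    rw [Cardinal.mk_sigma]
    exact Cardinal.sum_lt_of_isRegular hreg hfin fun l => (hQ l).1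
  have hE' : #(E × (Fin (n + 1) → Option (Σ l, Q l))) < κ := by
    rw [Cardinal.mk_prod]
    simp only [Cardinal.lift_id]
    refine Cardinal.mul_lt_of_lt hreg.aleph0_le hE ?_
    rw [← Cardinal.power_def]
    exact pow_lt hlim hreg.aleph0_le hC hfin
  have hinj : ∀ l : Fin (n + 1), Function.Injective
      (fun q : Q l => (some ⟨l, q⟩ : Option (Σ l, Q l))) := by
    intro l q q' h
    simpa using h
  obtain ⟨q₀, hq₀⟩ : ∃ q₀ : (l : Fin (n + 1)) → Option (Σ l, Q l) → T l,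
      ∀ l, q₀ l = Function.extend (fun q : Q l => (some ⟨l, q⟩ : Option (Σ l, Q l)))
        (fun q => q.1) (fun _ => r l) := ⟨_, fun l => rfl⟩
  have hrq : ∀ l k, r l ≤ q₀ l k := by
    intro l k
    rw [hq₀]
    by_cases hk : ∃ q : Q l, (some ⟨l, q⟩ : Option (Σ l, Q l)) = k
    · obtain ⟨q, rfl⟩ := hk
      rw [(hinj l).extend_apply]
      exact (hQ l).2 q q.2
    · rw [Function.extend_apply' _ _ _ hk]
  obtain ⟨ζ, x, y, hx, hy, hxy⟩ := avoidPG hκ hHL hS hT hι c hR hC hE'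
    (fun e => f e.1) (fun e => hf e.1) (fun e => e.2) (fun e => F e.1) p₀ q₀
    (fun e h => hbad e.1 (h.of_le (fun _ => le_rfl) fun l => hrq l _))
  obtain ⟨y', hy'⟩ : ∃ y' : (l : Fin (n + 1)) → T l → T l,
      ∀ l q (h : q ∈ Q l), y' l q = y l (some ⟨l, ⟨q, h⟩⟩) :=
    ⟨fun l q => if h : q ∈ Q l then y l (some ⟨l, ⟨q, h⟩⟩) else q, fun l q h => dif_pos h⟩
  refine ⟨ζ, x, y', hx, fun l q hq => ?_, fun e q hq hall => ?_⟩
  · rw [hy' l q hq]
    have h1 := hy l (some ⟨l, ⟨q, hq⟩⟩)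
    rw [hq₀, (hinj l).extend_apply] at h1
    exact h1
  · refine hxy (e, fun l => some ⟨l, ⟨q l, hq l⟩⟩) fun θ => ?_
    have h1 := hall θ
    have h2 : (fun l => y' l (q l)) = fun l => y l (some ⟨l, ⟨q l, hq l⟩⟩) := by
      funext l
      exact hy' l (q l) (hq l)
    rw [h2] at h1
    exact h1

end Pool.Agent.Helper39.HG
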