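import Pool.Agent.Helper39.HG.PatDef

/-!
# The pattern theorem with rows of tuples
-/

set_option autoImplicit false

open Cardinal Set Helper2.HB Pool.Agent.Helper58.HL Pool.Agent.Helper39.HL
  Pool.Agent.Helper39.HT

namespace Pool.Agent.Helper39.HG

variable {κ : Cardinal.{0}} {a n : ℕ} {S : Fin (a + 1) → Set (Node κ.ord.ToType)}
  {T : Fin (n + 1) → Set (Node κ.ord.ToType)} {ι : Type}

/-- **The pattern theorem.** If for all `j` and all `s ≥ r` the colours outside `F j` do not have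
all boxes above `(P j, s)`, then the pattern `F` is good above `P` and `r`. -/
theorem patternG (hκ : κ.IsInaccessible) (hHL : HLProp κ (n + 1))
    (hS : ∀ l, IsRegularTree (S l)) (hT : ∀ l, IsRegularTree (T l)) (hι : #ι < κ)
    (c : ((l : Fin (a + 1)) → S l) → ((l : Fin (n + 1)) → T l) → ι) {A : Type}
    [hAne : Nonempty A] (hA : #A < κ) (P : A → (l : Fin (a + 1)) → S l)
    (r : (l : Fin (n + 1)) → T l) (F : A → Set ι)
    (hF : ∀ j s, r ≤ s → ¬ AllBoxesG c (P j) s (F j)ᶜ) :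
    GoodG Set.Nonempty c P r F := by
  classical
  have hreg := hκ.isRegular
  have hlim : ∀ x < κ, 2 ^ x < κ := fun x hx => hκ.isStrongLimit.isStrongPrelimit hx
  have h0 := hreg.aleph0_le
  have : NoMaxOrder κ.ord.ToType := Cardinal.noMaxOrder h0
  have hfina : #(Fin (a + 1)) < κ := lt_of_lt_of_le (Cardinal.lt_aleph0_of_finite _) h0
  by_contra hbad
  have h1 : ∀ (j : A) (s : (l : Fin (n + 1)) → T l), ∃ (PP : (l : Fin (a + 1)) → Set (S l))
      (Q : (l : Fin (n + 1)) → Set (T l)), (∀ l, #(PP l) < κ ∧ ∀ p ∈ PP l, P j l ≤ p) ∧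
        (r ≤ s → ((∀ l, #(Q l) < κ ∧ ∀ q ∈ Q l, s l ≤ q) ∧ boxG c PP Q (F j)ᶜ = ∅)) := by
    intro j s
    by_cases hs : r ≤ s
    · have h2 := hF j s hs
      unfold AllBoxesG at h2
      push Not at h2
      obtain ⟨PP, Q, h3, h4, h5⟩ := h2
      simp only [Cardinal.mk_ord_toType] at h3 h4
      exact ⟨PP, Q, h3, fun _ => ⟨h4, h5⟩⟩
    · refine ⟨fun _ => ∅, fun _ => ∅, fun l => ⟨?_, fun p hp => absurd hp (notMem_empty p)⟩,
        fun h => absurd h hs⟩
      have : (0 : Cardinal) < κ := lt_of_lt_of_le aleph0_pos h0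
      simpa using this
  choose PP Q hPP hQQ using h1
  obtain ⟨ζs, hζs⟩ := exists_level_label hκ hHL hT hA r Q (fun j s hs => (hQQ j s hs).1)
  obtain ⟨ζt, hζt⟩ := exists_gt ζs
  -- the rows
  let Sx : Type := {s : (l : Fin (n + 1)) → T l //
    ∀ l, r l ≤ s l ∧ (s l : Node κ.ord.ToType).len ≤ ζs}
  have hSx : #Sx < κ := by
    refine lt_of_le_of_lt ?_ (card_lowtup hreg hlim hT ζt)
    exact Cardinal.mk_subtype_mono fun s hs l => (hs l).2.trans_lt hζt
  let PI : A → ((l : Fin (n + 1)) → T l) → (l : Fin (a + 1)) → Set (S l) := fun j s l =>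
    insert (P j l) (PP j s l)
  have hPI : ∀ j s l, #(PI j s l) < κ := fun j s l =>
    lt_of_le_of_lt Cardinal.mk_insert_le
      (Cardinal.add_lt_of_lt h0 (hPP j s l).1 (lt_of_lt_of_le one_lt_aleph0 h0))
  have hPIle : ∀ j s l, ∀ u ∈ PI j s l, P j l ≤ u := by
    rintro j s l u (rfl | hu)
    · exact le_rfl
    · exact (hPP j s l).2 u hu
  let W : A → ((l : Fin (n + 1)) → T l) → Type := fun j s => (l : Fin (a + 1)) → PI j s l
  have hW : ∀ j s, #(W j s) < κ := by
    intro j s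
    have h2 : #((l : Fin (a + 1)) → PI j s l) ≤ #(Fin (a + 1) → Σ l, PI j s l) := by
      refine Cardinal.mk_le_of_injective (f := fun v l => (⟨l, v l⟩ : Σ l, PI j s l)) ?_
      intro v w h
      funext l
      have h3 := congrFun h l
      simpa using h3
    refine lt_of_le_of_lt h2 ?_
    rw [← Cardinal.power_def]
    refine pow_lt hlim h0 ?_ hfina
    rw [Cardinal.mk_sigma]
    exact Cardinal.sum_lt_of_isRegular hreg hfina fun l => hPI j s l
  let Rx : Type := Σ j : A, Σ s : Sx, W j s.1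
  have hRa : ∀ j : A, #(Σ s : Sx, W j s.1) < κ := by
    intro j
    rw [Cardinal.mk_sigma]
    exact Cardinal.sum_lt_of_isRegular hreg hSx fun s => hW j s.1
  have hRx : #Rx < κ := by
    rw [Cardinal.mk_sigma]
    exact Cardinal.sum_lt_of_isRegular hreg hA hRa
  let Ea : A → Type := fun j => Σ s : Sx, (Fin (a + 1) → W j s.1)
  have hEa : ∀ j, #(Ea j) < κ := by
    intro j
    rw [Cardinal.mk_sigma]
    refine Cardinal.sum_lt_of_isRegular hreg hSx fun s => ?_
    rw [← Cardinal.power_def]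
    exact pow_lt hlim h0 (hW j s.1) hfina
  have hE : #((j : A) → Ea j) < κ := by
    have h2 : #((j : A) → Ea j) ≤ #(A → Σ j : A, Ea j) := by
      refine Cardinal.mk_le_of_injective (f := fun e j => (⟨j, e j⟩ : Σ j : A, Ea j)) ?_
      intro e e' h
      funext j
      have h3 := congrFun h j
      exact eq_of_heq (Sigma.mk.inj h3).2
    refine lt_of_le_of_lt h2 ?_
    rw [← Cardinal.power_def]
    refine pow_lt hlim h0 ?_ hA
    rw [Cardinal.mk_sigma]
    exact Cardinal.sum_lt_of_isRegular hreg hA hEa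
  -- the columns
  let Qc : (l : Fin (n + 1)) → Set (T l) := fun l =>
    {y | r l ≤ y ∧ (y : Node κ.ord.ToType).len = ζs}
  have hQc : ∀ l, #(Qc l) < κ ∧ ∀ q ∈ Qc l, r l ≤ q := by
    intro l
    refine ⟨?_, fun q hq => hq.1⟩
    have h2 := (hT l).level ζs
    rw [Cardinal.mk_ord_toType] at h2
    refine lt_of_le_of_lt ?_ h2
    refine Cardinal.mk_le_of_injective (f := fun y : Qc l =>
      (⟨y.1.1, y.1.2, y.2.2⟩ : {t // t ∈ T l ∧ t.len = ζs})) ?_
    intro y z h
    exact Subtype.ext (Subtype.ext (congrArg (fun w => (w.1 : Node κ.ord.ToType)) h))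
  obtain ⟨ζ, x, y, hx, hy, hxy⟩ := avoid_setsG hκ hHL hS hT hι c (Θ := A) hRx hE
    (fun e j l => (⟨j, (e j).1, (e j).2 l⟩ : Rx)) (fun e l j j' h => (Sigma.mk.inj h).1)
    (fun _ => F) (fun m l => (m.2.2 l).1) r Qc hQc (fun e h => hbad (h.of_le (fun j l =>
      hPIle _ _ _ _ ((e j).2 l l).2) (le_refl r)))
  -- the labels
  have hlab : ∀ v : (l : Fin (n + 1)) → T l, ∃ j : A, (∀ l, v l ∈ Qc l) →
      ∀ (s : Sx) (m : Fin (a + 1) → W j s.1),
        c (fun l => x ⟨j, s, m l⟩ l) (fun l => y l (v l)) ∉ F j := by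
    intro v
    by_cases hv : ∀ l, v l ∈ Qc l
    · by_contra hcon
      push Not at hcon
      have h3 : ∀ j, ∃ (s : Sx) (m : Fin (a + 1) → W j s.1),
          c (fun l => x ⟨j, s, m l⟩ l) (fun l => y l (v l)) ∈ F j := fun j => (hcon j).2
      choose es em he using h3
      exact hxy (fun j => ⟨es j, em j⟩) v hv he
    · obtain ⟨j⟩ := hAne
      exact ⟨j, fun h => absurd h hv⟩
  choose lab hlab using hlab
  obtain ⟨j, s, hs, yy, hyy, hyyc⟩ := hζs lab
  have hrs : r ≤ s := fun l => (hs l).1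
  have hB := hQQ j s hrs
  -- the index of a node
  let base : W j s := fun l => ⟨P j l, mem_insert _ _⟩
  have hidx : ∀ (l : Fin (a + 1)) (u : S l), ∃ m : W j s, u ∈ PP j s l → (m l).1 = u := by
    intro l u
    by_cases hu : u ∈ PP j s l
    · refine ⟨Function.update base l ⟨u, mem_insert_of_mem _ hu⟩, fun _ => ?_⟩
      rw [Function.update_self]
    · exact ⟨base, fun h => absurd h hu⟩
  choose ρ hρ using hidx
  have hmem : ζ ∈ boxG c (PP j s) (Q j s) (F j)ᶜ := by
    refine ⟨fun l u => x ⟨j, ⟨s, hs⟩, ρ l u⟩ l, fun l q => y l (yy l q), fun l u hu => ?_,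
      fun l q hq => ?_, fun u q hu hq => ?_⟩
    · have h4 := hx ⟨j, ⟨s, hs⟩, ρ l u⟩ l
      have h5 : ((ρ l u) l).1 = u := hρ l u hu
      refine ⟨?_, h4.2⟩
      have h6 : ((ρ l u) l).1 ≤ x ⟨j, ⟨s, hs⟩, ρ l u⟩ l := h4.1
      rw [h5] at h6
      exact h6
    · have h4 : yy l q ∈ Qc l := ⟨(hrs l).trans (((hB.1 l).2 q hq).trans (hyy l q hq).1),
        (hyy l q hq).2⟩
      have h5 := hy l (yy l q) h4
      exact ⟨(hyy l q hq).1.trans h5.1, h5.2⟩
    · have h4 : ∀ l, yy l (q l) ∈ Qc l := fun l =>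
        ⟨(hrs l).trans (((hB.1 l).2 (q l) (hq l)).trans (hyy l (q l) (hq l)).1),
        (hyy l (q l) (hq l)).2⟩
      have h5 := hlab (fun l => yy l (q l)) h4
      rw [hyyc q hq] at h5
      exact h5 ⟨s, hs⟩ (fun l => ρ l (u l))
  rw [hB.2] at hmem
  exact absurd hmem (notMem_empty ζ)

end Pool.Agent.Helper39.HG
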