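import Pool.Agent.Helper39.HG.Avoid

/-!
# Two families of trees: a further row, matrices
-/

set_option autoImplicit false

open Cardinal Set Helper2.HB Pool.Agent.Helper58.HL Pool.Agent.Helper39.HL
  Pool.Agent.Helper39.HT

namespace Pool.Agent.Helper39.HG

variable {κ : Cardinal.{0}} {a n : ℕ} {T₀ : Fin (a + 1) → Set (Node κ.ord.ToType)}
  {T : Fin (n + 1) → Set (Node κ.ord.ToType)} {ι B : Type}

/-- **A further row can be added.** -/
theorem exists_stepGoodG (hκ : κ.IsInaccessible) (hHL : HLProp κ (n + 1))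
    (hHL0 : HLProp κ (a + 1)) (h₀ : ∀ l, IsRegularTree (T₀ l)) (hT : ∀ l, IsRegularTree (T l))
    (hB : #B < κ) [hBne : Nonempty B]
    (c : ((l : Fin (a + 1)) → T₀ l) → ((l : Fin (n + 1)) → T l) → ι)
    (Φ : κ.ord.ToType → B → ((l : Fin (n + 1)) → T l) → Prop)
    (s : B → (l : Fin (n + 1)) → T l) (hfull : Full Φ s) (V : B → Set ι)
    (p : (l : Fin (a + 1)) → T₀ l)
    (hno : ∀ (b : B) (p₁ : (l : Fin (a + 1)) → T₀ l) (s₁ : (l : Fin (n + 1)) → T l), p ≤ p₁ →
      (∀ l, s b l ≤ s₁ l) → ¬ AllBoxesG c p₁ s₁ (V b)ᶜ) :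
    ∃ (p₁ : (l : Fin (a + 1)) → T₀ l) (r₁ : B → (l : Fin (n + 1)) → T l), p ≤ p₁ ∧
      (∀ b l, s b l ≤ r₁ b l) ∧ StepGoodG c Φ V p₁ r₁ := by
  classical
  have hreg := hκ.isRegular
  have hlim : ∀ x < κ, 2 ^ x < κ := fun x hx => hκ.isStrongLimit.isStrongPrelimit hx
  have h0 := hreg.aleph0_le
  have hNM : NoMaxOrder κ.ord.ToType := Cardinal.noMaxOrder h0
  have hfin : #(Fin (n + 1)) < κ := lt_of_lt_of_le (Cardinal.lt_aleph0_of_finite _) h0
  by_contra hcon
  have hbad : ∀ (p₁ : (l : Fin (a + 1)) → T₀ l) (r₁ : B → (l : Fin (n + 1)) → T l), p ≤ p₁ →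
      (∀ b l, s b l ≤ r₁ b l) → ¬ StepGoodG c Φ V p₁ r₁ :=
    fun p₁ r₁ h1 h2 h3 => hcon ⟨p₁, r₁, h1, h2, h3⟩
  -- the killing families
  have h1 : ∀ (b : B) (p₁ : (l : Fin (a + 1)) → T₀ l), ∃ (P : (l : Fin (a + 1)) → Set (T₀ l))
      (Q : (l : Fin (n + 1)) → Set (T l)), p ≤ p₁ →
        ((∀ l, #(P l) < κ ∧ ∀ u ∈ P l, p₁ l ≤ u) ∧ (∀ l, #(Q l) < κ ∧ ∀ q ∈ Q l, s b l ≤ q) ∧
          boxG c P Q (V b)ᶜ = ∅) := by
    intro b p₁
    by_cases hp : p ≤ p₁
    · have h2 := hno b p₁ (s b) hp (fun l => le_rfl)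
      unfold AllBoxesG at h2
      push Not at h2
      obtain ⟨P, Q, h3, h4, h5⟩ := h2
      simp only [Cardinal.mk_ord_toType] at h3 h4
      exact ⟨P, Q, fun _ => ⟨h3, h4, h5⟩⟩
    · exact ⟨fun _ => ∅, fun _ => ∅, fun h => absurd h hp⟩
  choose P Q hPQ using h1
  obtain ⟨ζs, hζs⟩ := exists_level_label hκ hHL0 h₀ hB p (fun b v => P b v) (by
      intro b v hv l
      exact (hPQ b v hv).1 l)
  obtain ⟨ζt, hζt⟩ := exists_gt ζs
  -- a bound for the killing families
  have hbd : ∃ ζ₃ : κ.ord.ToType, (∀ l, (s hBne.some l : Node κ.ord.ToType).len < ζ₃) ∧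
      ∀ (b : B) (p₁ : (l : Fin (a + 1)) → T₀ l), p ≤ p₁ →
        (∀ l, (p₁ l : Node κ.ord.ToType).len < ζt) → ∀ l, ∀ q ∈ Q b p₁ l,
          (q : Node κ.ord.ToType).len < ζ₃ := by
    obtain ⟨e1, he1⟩ := exists_bound hreg hfin
      (fun l => (s hBne.some l : Node κ.ord.ToType).len)
    have hI : #(B × {u : {u : (l : Fin (a + 1)) → T₀ l //
        ∀ l, (u l : Node κ.ord.ToType).len < ζt} // p ≤ u.1}) < κ := by
      rw [Cardinal.mk_prod]
      simp only [Cardinal.lift_id]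
      exact Cardinal.mul_lt_of_lt h0 hB
        (lt_of_le_of_lt (Cardinal.mk_subtype_le _) (card_lowtup hreg hlim h₀ ζt))
    have hJ : #(Σ z : B × {u : {u : (l : Fin (a + 1)) → T₀ l //
        ∀ l, (u l : Node κ.ord.ToType).len < ζt} // p ≤ u.1},
        Σ l : Fin (n + 1), Q z.1 z.2.1.1 l) < κ := by
      rw [Cardinal.mk_sigma]
      refine Cardinal.sum_lt_of_isRegular hreg hI fun z => ?_
      rw [Cardinal.mk_sigma]
      exact Cardinal.sum_lt_of_isRegular hreg hfin fun l =>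
        ((hPQ z.1 z.2.1.1 z.2.2).2.1 l).1
    obtain ⟨e2, he2⟩ := exists_bound hreg hJ
      (fun z => ((z.2.2 : T z.2.1) : Node κ.ord.ToType).len)
    obtain ⟨ζ₃, hζ₃⟩ := exists_gt (max e1 e2)
    refine ⟨ζ₃, fun l => (he1 l).trans_lt ((le_max_left _ _).trans_lt hζ₃),
      fun b p₁ hp hpl l q hq => ?_⟩
    exact (he2 ⟨(b, ⟨⟨p₁, hpl⟩, hp⟩), l, q, hq⟩).trans_lt ((le_max_right _ _).trans_lt hζ₃)
  obtain ⟨ζ₃, hζ₃, hQ₃⟩ := hbd
  -- rows and columns
  let R : Type := {u : (l : Fin (a + 1)) → T₀ l // ∀ l, p l ≤ u l ∧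
    (u l : Node κ.ord.ToType).len = ζs}
  have hR : #R < κ := by
    refine lt_of_le_of_lt ?_ (card_lowtup hreg hlim h₀ ζt)
    exact Cardinal.mk_subtype_mono fun u hu l => (hu l).2.trans_lt hζt
  let C : Type := {w : (l : Fin (n + 1)) → T l // ∀ l, (w l : Node κ.ord.ToType).len < ζ₃}
  have hC : #C < κ := card_lowtup hreg hlim hT ζ₃
  have hCne : Nonempty C := ⟨⟨s hBne.some, hζ₃⟩⟩
  have hpζ : ∀ l, (p l : Node κ.ord.ToType).len ≤ ζs := by
    obtain ⟨b, v, hv, -⟩ := hζs (fun _ => hBne.some)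
    exact fun l => (show (p l : Node κ.ord.ToType) ≤ (v l : Node κ.ord.ToType) from
      (hv l).1).1.trans (hv l).2
  have hRne : Nonempty R := by
    choose u hu1 hu2 using fun l => exists_level (h₀ l) (p l) ζs (hpζ l)
    exact ⟨⟨u, fun l => ⟨hu1 l, hu2 l⟩⟩⟩
  obtain ⟨ζ, x, y, hx, hy, hxy⟩ := avoidG hκ hHL h₀ hT hB c Φ s hfull V p hbad hR hC
    (fun u : R => u.1) (fun u l => (u.2 l).1)
    (fun b l k => if s b l ≤ k.1 l then k.1 l else s b l) (by
      intro b l k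
      split_ifs with h
      · exact h
      · exact le_rfl)
  -- the row of a node
  have hrowR : ∀ (l : Fin (a + 1)) (u : T₀ l), ∃ m : R,
      (p l ≤ u ∧ (u : Node κ.ord.ToType).len = ζs) → m.1 l = u := by
    intro l u
    by_cases hu : p l ≤ u ∧ (u : Node κ.ord.ToType).len = ζs
    · refine ⟨⟨Function.update hRne.some.1 l u, fun l' => ?_⟩, fun _ => ?_⟩
      · by_cases hl : l' = l
        · subst hl
          rw [Function.update_self]
          exact hu
        · rw [Function.update_of_ne hl]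
          exact hRne.some.2 l'
      · exact Function.update_self _ _ _
    · exact ⟨hRne.some, fun h => absurd h hu⟩
  choose ρ hρ using hrowR
  -- the labels
  have hlab : ∀ v : (l : Fin (a + 1)) → T₀ l, ∃ b : B, ∀ k : Fin (n + 1) → C,
      c (fun l => x (ρ l (v l)) l) (fun l => y b l (k l)) ∉ V b := by
    intro v
    by_contra hcon2
    push Not at hcon2
    choose k hk using hcon2
    exact hxy (fun l => ρ l (v l)) k hk
  choose lab hlab using hlab
  obtain ⟨b, v, hv, yy, hyy, hyyc⟩ := hζs lab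
  have hpv : p ≤ v := fun l => (hv l).1
  have hvt : ∀ l, (v l : Node κ.ord.ToType).len < ζt := fun l => (hv l).2.trans_lt hζt
  have hA := hPQ b v hpv
  have hcol : ∀ (l : Fin (n + 1)) (q : T l), ∃ z : T l, q ∈ Q b v l →
      (q ≤ z ∧ (z : Node κ.ord.ToType).len = ζ ∧ ∃ k : C, y b l k = z) := by
    intro l q
    by_cases hq : q ∈ Q b v l
    · have hql := hQ₃ b v hpv hvt l q hq
      have hsq : s b l ≤ q := (hA.2.1 l).2 q hq
      let k : C := ⟨Function.update (s hBne.some) l q, fun l' => by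
        by_cases hl : l' = l
        · subst hl
          rw [Function.update_self]
          exact hql
        · rw [Function.update_of_ne hl]
          exact hζ₃ l'⟩
      have hk : k.1 l = q := Function.update_self _ _ _
      refine ⟨y b l k, fun _ => ⟨?_, (hy b l k).2, k, rfl⟩⟩
      have h4 := (hy b l k).1
      rw [hk, if_pos hsq] at h4
      exact h4
    · exact ⟨q, fun h => absurd h hq⟩
  choose y' hy' using hcol
  have hmem : ζ ∈ boxG c (P b v) (Q b v) (V b)ᶜ := by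
    refine ⟨fun l u => x (ρ l (yy l u)) l, y', fun l u hu => ?_, fun l q hq => ?_,
      fun u q hu hq => ?_⟩
    · have h4 := hyy l u hu
      have h5 := hx (ρ l (yy l u)) l
      have h6 : (ρ l (yy l u)).1 l = yy l u := hρ l (yy l u)
        ⟨(hpv l).trans (((hA.1 l).2 u hu).trans h4.1), h4.2⟩
      refine ⟨h4.1.trans ?_, h5.2⟩
      have h7 := h5.1
      rw [h6] at h7
      exact h7
    · exact ⟨(hy' l q hq).1, (hy' l q hq).2.1⟩
    · have h6 : ∀ l, ∃ k : C, y b l k = y' l (q l) := fun l => (hy' l (q l) (hq l)).2.2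
      choose k hk using h6
      have h7 : (fun l => y' l (q l)) = fun l => y b l (k l) := funext fun l => (hk l).symm
      rw [h7]
      have h8 := hyyc u hu
      have h9 := hlab (fun l => yy l (u l)) k
      rw [h8] at h9
      exact h9
  rw [hA.2.2] at hmem
  exact absurd hmem (notMem_empty ζ)

/-- **The matrix theorem**, two families of trees. -/
theorem matrixG (hκ : κ.IsInaccessible) (hHL : HLProp κ (n + 1)) (hHL0 : HLProp κ (a + 1))
    (h₀ : ∀ l, IsRegularTree (T₀ l)) (hT : ∀ l, IsRegularTree (T l)) (hB : #B < κ)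
    [hBne : Nonempty B] (c : ((l : Fin (a + 1)) → T₀ l) → ((l : Fin (n + 1)) → T l) → ι)
    (R : B → (l : Fin (n + 1)) → T l) :
    ∀ (m : ℕ) (P : Fin m → (l : Fin (a + 1)) → T₀ l) (V : Fin m → B → Set ι),
      (∀ (i : Fin m) (b : B) (p : (l : Fin (a + 1)) → T₀ l) (s : (l : Fin (n + 1)) → T l),
        P i ≤ p → (∀ l, R b l ≤ s l) → ¬ AllBoxesG c p s (V i b)ᶜ) →
      ∃ (x : Fin m → κ.ord.ToType → (l : Fin (a + 1)) → T₀ l)
        (s : B → (l : Fin (n + 1)) → T l),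
        (∀ i ζ l, (x i ζ l : Node κ.ord.ToType).len = ζ) ∧ (∀ i ζ ξ, ζ ≤ ξ → x i ζ ≤ x i ξ) ∧
        (∀ i l ζ, (P i l : Node κ.ord.ToType).len ≤ ζ → P i l ≤ x i ζ l) ∧
        (∀ b l, R b l ≤ s b l) ∧ Full (fun ζ b y => ∀ i, c (x i ζ) y ∈ V i b) s := by
  intro m
  induction m with
  | zero =>
    intro P V _
    exact ⟨fun i => i.elim0, R, fun i => i.elim0, fun i => i.elim0, fun i => i.elim0,
      fun b l => le_rfl, full_true hT _ (fun _ _ _ i => i.elim0) R⟩
  | succ m ih =>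
    intro P V hno
    obtain ⟨x, s, hx1, hx2, hx3, hs, hfull⟩ := ih (fun i => P i.succ) (fun i => V i.succ)
      (fun i => hno i.succ)
    obtain ⟨p₁, r₁, hp, hr, hg⟩ := exists_stepGoodG hκ hHL hHL0 h₀ hT hB c _ s hfull (V 0)
      (P 0) (fun b p₁ s₁ h1 h2 => hno 0 b p₁ s₁ h1 fun l => (hs b l).trans (h2 l))
    obtain ⟨x₀, h1, h2, h3, h4⟩ := branch_of_goodG hκ.isRegular h₀ c _ (V 0) p₁ r₁ hg
    refine ⟨Fin.cons x₀ x, r₁, ?_, ?_, ?_, fun b l => (hs b l).trans (hr b l), ?_⟩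
    · intro i
      refine Fin.cases ?_ (fun j => ?_) i
      · simpa using h1
      · simpa using hx1 j
    · intro i
      refine Fin.cases ?_ (fun j => ?_) i
      · simpa using h2
      · simpa using hx2 j
    · intro i
      refine Fin.cases ?_ (fun j => ?_) i
      · intro l ζ hζ
        simp only [Fin.cons_zero]
        have h5 : (x₀ ζ l : Node κ.ord.ToType).len = ζ := h1 ζ l
        have h6 := h3 l (max ζ (p₁ l : Node κ.ord.ToType).len) (le_max_right _ _)
        have h7 := h2 ζ (max ζ (p₁ l : Node κ.ord.ToType).len) (le_max_left _ _) l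
        exact Node.le_of_le_of_le ((hp l).trans h6) h7 (by rw [h5]; exact hζ)
      · simpa using hx3 j
    · intro ζ'
      obtain ⟨ζ, hζ, Y, hY1, hY2⟩ := h4 ζ'
      refine ⟨ζ, hζ, Y, hY1, fun b u hu => ?_⟩
      obtain ⟨h8, h9⟩ := hY2 b u hu
      intro i
      refine Fin.cases ?_ (fun j => ?_) i
      · simpa using h9
      · simpa using h8 j

end Pool.Agent.Helper39.HG
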