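import Pool.Agent.Helper39.HG.PatG
import Pool.Agent.Helper39.HG.Final

/-!
# Boxes on almost all levels, rows of tuples
-/

set_option autoImplicit false

open Cardinal Set Helper2.HB Pool.Agent.Helper58.HL Pool.Agent.Helper39.HL
  Pool.Agent.Helper39.HT

namespace Pool.Agent.Helper39.HG

variable {κ : Cardinal.{0}} {a n : ℕ} {S : Fin (a + 1) → Set (Node κ.ord.ToType)}
  {T : Fin (n + 1) → Set (Node κ.ord.ToType)} {ι : Type}

/-- From large sets of levels to single levels. -/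
theorem transferG (hκ : κ.IsInaccessible) (hS : ∀ l, IsRegularTree (S l))
    (hT : ∀ l, IsRegularTree (T l))
    (c : ((l : Fin (a + 1)) → S l) → ((l : Fin (n + 1)) → T l) → ι)
    (Large : Set κ.ord.ToType → Prop) (hL : IsLarge Large) {A : Type}
    (hA : #A < κ) (P : A → (l : Fin (a + 1)) → S l) (r : (l : Fin (n + 1)) → T l)
    (F : A → Set ι) (hbad : ¬ GoodG Large c P r F) :
    ∃ c' : ((l : Fin (a + 1)) → S l) → ((l : Fin (n + 1)) → T l) → ι,
      ¬ GoodG Set.Nonempty c' P r F ∧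
      ∀ (PP : (l : Fin (a + 1)) → Set (S l)) (Q : (l : Fin (n + 1)) → Set (T l)) (G : Set ι),
        (boxG c' PP Q G).Nonempty → (boxG c PP Q G).Nonempty := by
  classical
  have hreg := hκ.isRegular
  have hlim : ∀ x < κ, 2 ^ x < κ := fun x hx => hκ.isStrongLimit.isStrongPrelimit hx
  have hNM : NoMaxOrder κ.ord.ToType := Cardinal.noMaxOrder hreg.aleph0_le
  rcases hL with rfl | ⟨D, hD, rfl⟩
  · exact ⟨c, hbad, fun PP Q G h => h⟩
  have hkill : ∀ (p : A → (l : Fin (a + 1)) → S l) (s : (l : Fin (n + 1)) → T l),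
      ∃ (p' : A → (l : Fin (a + 1)) → S l) (Q : (l : Fin (n + 1)) → Set (T l))
        (Z : Set κ.ord.ToType), Z ∈ D ∧
        (P ≤ p → r ≤ s → (p ≤ p' ∧ (∀ l, #(Q l) < κ ∧ ∀ q ∈ Q l, s l ≤ q) ∧
          ∀ ζ ∈ Z, ζ ∉ rowLevels c p' Q F)) := by
    intro p s
    by_cases h : P ≤ p ∧ r ≤ s
    · have h1 := hbad
      unfold GoodG at h1
      push Not at h1
      obtain ⟨p', Q, h2, h3, h4⟩ := h1 p s h.1 h.2
      rw [Cardinal.mk_ord_toType] at h3
      exact ⟨p', Q, (rowLevels c p' Q F)ᶜ, Ultrafilter.compl_mem_iff_notMem.2 h4,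
        fun _ _ => ⟨h2, h3, fun ζ hζ => hζ⟩⟩
    · exact ⟨p, fun _ => ∅, univ, Filter.univ_mem, fun h1 h2 => absurd ⟨h1, h2⟩ h⟩
  choose p' Q Z hZ hk using hkill
  let Ix : κ.ord.ToType → Type := fun ζ =>
    {p : A → (l : Fin (a + 1)) → S l // ∀ j l, (p j l : Node κ.ord.ToType).len < ζ} ×
      {s : (l : Fin (n + 1)) → T l // ∀ l, (s l : Node κ.ord.ToType).len < ζ}
  have hIx : ∀ ζ, #(Ix ζ) < κ := by
    intro ζ
    have h1 : #{p : A → (l : Fin (a + 1)) → S l //
        ∀ j l, (p j l : Node κ.ord.ToType).len < ζ} < κ := by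
      have h2 : #{p : A → (l : Fin (a + 1)) → S l //
          ∀ j l, (p j l : Node κ.ord.ToType).len < ζ} ≤
          #(A → {u : (l : Fin (a + 1)) → S l // ∀ l, (u l : Node κ.ord.ToType).len < ζ}) := by
        refine Cardinal.mk_le_of_injective (f := fun p j =>
          (⟨p.1 j, p.2 j⟩ : {u : (l : Fin (a + 1)) → S l //
            ∀ l, (u l : Node κ.ord.ToType).len < ζ})) ?_
        intro p q h
        refine Subtype.ext (funext fun j => ?_)
        exact congrArg Subtype.val (congrFun h j)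
      refine lt_of_le_of_lt h2 ?_
      rw [← Cardinal.power_def]
      exact pow_lt hlim hreg.aleph0_le (card_lowtup hreg hlim hS ζ) hA
    change #({p : A → (l : Fin (a + 1)) → S l //
        ∀ j l, (p j l : Node κ.ord.ToType).len < ζ} ×
      {s : (l : Fin (n + 1)) → T l // ∀ l, (s l : Node κ.ord.ToType).len < ζ}) < κ
    rw [Cardinal.mk_prod]
    simp only [Cardinal.lift_id]
    exact Cardinal.mul_lt_of_lt hreg.aleph0_le h1 (card_lowtup hreg hlim hT ζ)
  have hZI : ∀ ζ, (⋂ z : Ix ζ, Z z.1.1 z.2.1) ∈ D := fun ζ =>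
    mem_inter_of_card hD (hIx ζ) _ fun z => hZ _ _
  have hZs := hD.diag _ hZI
  have hnx : ∀ ζ : κ.ord.ToType, ∃ u v, ζ < u ∧ u < v ∧
      ∀ a < v, v ∈ ⋂ z : Ix a, Z z.1.1 z.2.1 := by
    intro ζ
    obtain ⟨u, hu⟩ := exists_gt ζ
    obtain ⟨v, hv1, hv2⟩ := D.nonempty_of_mem (Filter.inter_mem hZs (hD.tail u))
    exact ⟨u, v, hu, hv2, hv1⟩
  choose up nx hup hnx hnxZ using hnx
  have he0 : ∀ l (x : S l), ∃ u : S l, x ≤ u ∧
      (u : Node κ.ord.ToType).len = nx (x : Node κ.ord.ToType).len := fun l x =>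
    exists_level (hS l) x _ ((hup _).trans (hnx _)).le
  have he1 : ∀ l (x : T l), ∃ u : T l, x ≤ u ∧
      (u : Node κ.ord.ToType).len = nx (x : Node κ.ord.ToType).len := fun l x =>
    exists_level (hT l) x _ ((hup _).trans (hnx _)).le
  choose e0 he0 he0l using he0
  choose e1 he1 he1l using he1
  let c' : ((l : Fin (a + 1)) → S l) → ((l : Fin (n + 1)) → T l) → ι := fun x y =>
    c (fun l => e0 l (x l)) (fun l => e1 l (y l))
  have key : ∀ (p : A → (l : Fin (a + 1)) → S l) (Q : (l : Fin (n + 1)) → Set (T l))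
      (ζ : κ.ord.ToType), ζ ∈ rowLevels c' p Q F → nx ζ ∈ rowLevels c p Q F := by
    rintro p Q ζ ⟨x, y, hx, hy, hxy⟩
    refine ⟨fun j l => e0 l (x j l), fun l q => e1 l (y l q),
      fun j => ⟨fun l => ((hx j).1 l).trans (he0 _ _), fun l => ?_⟩,
      fun l q hq => ⟨(hy l q hq).1.trans (he1 _ _), ?_⟩, hxy⟩
    · rw [he0l, (hx j).2]
    · rw [he1l, (hy l q hq).2]
  refine ⟨c', fun hgood => ?_, fun PP Q G h => ?_⟩
  · obtain ⟨p, s, h1, h2, h3⟩ := hgood
    have hk' := hk p s h1 h2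
    obtain ⟨ζ, x, y, hx, hy, hxy⟩ := h3 (p' p s) (fun l => insert (s l) (Q p s l)) hk'.1
      (by
        intro l
        refine ⟨?_, ?_⟩
        · rw [Cardinal.mk_ord_toType]
          refine lt_of_le_of_lt Cardinal.mk_insert_le ?_
          exact Cardinal.add_lt_of_lt hreg.aleph0_le (hk'.2.1 l).1
            (lt_of_lt_of_le one_lt_aleph0 hreg.aleph0_le)
        · rintro q (rfl | hq)
          · exact le_rfl
          · exact (hk'.2.1 l).2 q hq)
    have h4 : ζ ∈ rowLevels c' (p' p s) (Q p s) F :=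
      ⟨x, y, hx, fun l q hq => hy l q (mem_insert_of_mem _ hq), fun j q hq =>
        hxy j q fun l => mem_insert_of_mem _ (hq l)⟩
    refine hk'.2.2 (nx ζ) ?_ (key _ _ ζ h4)
    have h5 : ∀ j l, (p j l : Node κ.ord.ToType).len < up ζ := fun j l => by
      refine lt_of_le_of_lt ?_ (hup ζ)
      rw [← (hx j).2 l]
      exact (show (p j l : Node κ.ord.ToType) ≤ (x j l : Node κ.ord.ToType) from
        (hk'.1 j l).trans ((hx j).1 l)).1
    have h6 : ∀ l, (s l : Node κ.ord.ToType).len < up ζ := fun l => by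
      refine lt_of_le_of_lt ?_ (hup ζ)
      rw [← (hy l (s l) (mem_insert _ _)).2]
      exact (show (s l : Node κ.ord.ToType) ≤ (y l (s l) : Node κ.ord.ToType) from
        (hy l (s l) (mem_insert _ _)).1).1
    exact mem_iInter.1 (hnxZ ζ (up ζ) (hnx ζ)) ((⟨p, h5⟩, ⟨s, h6⟩) : Ix (up ζ))
  · obtain ⟨ζ, x, y, hx, hy, hxy⟩ := h
    refine ⟨nx ζ, fun l p => e0 l (x l p), fun l q => e1 l (y l q),
      fun l p hp => ⟨(hx l p hp).1.trans (he0 _ _), ?_⟩,
      fun l q hq => ⟨(hy l q hq).1.trans (he1 _ _), ?_⟩, hxy⟩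
    · rw [he0l, (hx l p hp).2]
    · rw [he1l, (hy l q hq).2]

/-- **The pattern theorem**, large sets of levels. -/
theorem patternLG (hκ : κ.IsInaccessible) (hHL : HLProp κ (n + 1))
    (hS : ∀ l, IsRegularTree (S l)) (hT : ∀ l, IsRegularTree (T l)) (hι : #ι < κ)
    (c : ((l : Fin (a + 1)) → S l) → ((l : Fin (n + 1)) → T l) → ι)
    (Large : Set κ.ord.ToType → Prop) (hL : IsLarge Large) {A : Type} [Nonempty A]
    (hA : #A < κ) (P : A → (l : Fin (a + 1)) → S l) (r : (l : Fin (n + 1)) → T l)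
    (F : A → Set ι) (hF : ∀ j s, r ≤ s → ¬ AllBoxesG c (P j) s (F j)ᶜ) :
    GoodG Large c P r F := by
  by_contra hbad
  obtain ⟨c', h1, h2⟩ := transferG hκ hS hT c Large hL hA P r F hbad
  refine h1 (patternG hκ hHL hS hT hι c' hA P r F fun j s hs hall => ?_)
  exact hF j s hs fun PP Q hP hQ => h2 PP Q _ (hall PP Q hP hQ)

/-- homogeneous strong subtrees, or all patterns are avoided -/
theorem patternG_ne (hκ : κ.IsInaccessible) (hHL : HLProp κ (n + 1))
    (hS : ∀ l, IsRegularTree (S l)) (hT : ∀ l, IsRegularTree (T l)) (hι : #ι < κ)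
    (c : ((l : Fin (a + 1)) → S l) → ((l : Fin (n + 1)) → T l) → ι)
    (s : (l : Fin (a + 1)) → S l) (t : (l : Fin (n + 1)) → T l)
    (hno : ∀ (s' : (l : Fin (a + 1)) → S l) (t' : (l : Fin (n + 1)) → T l), s ≤ s' → t ≤ t' →
      ¬ HomogeneousG c s' t') (Large : Set κ.ord.ToType → Prop) (hL : IsLarge Large)
    (A : Type) (hA : #A < κ) (P : A → (l : Fin (a + 1)) → S l) (hP : ∀ j, s ≤ P j)
    (f : A → ι) : GoodG Large c P t (fun j => {f j}ᶜ) := by
  classical
  have hA' : #(Option A) < κ := by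
    rw [Cardinal.mk_option]
    exact Cardinal.add_lt_of_lt hκ.aleph0_lt.le hA (lt_trans one_lt_aleph0 hκ.aleph0_lt)
  obtain ⟨p, r, h1, h2, h3⟩ := patternLG hκ hHL hS hT hι c Large hL (A := Option A) hA'
    (fun j => j.elim s P) t (fun j => j.elim {c s t}ᶜ (fun j => {f j}ᶜ)) (by
      intro j s' hs hall
      refine hno (j.elim s P) s' ?_ hs
        (AllBoxesG.homogeneous hκ.isRegular hS hT ?_ hall)
      · cases j with
        | none => exact le_rfl
        | some j => exact hP j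
      · cases j with
        | none =>
          intro i hi j hj
          simp only [Option.elim_none, compl_compl, mem_singleton_iff] at hi hj
          rw [hi, hj]
        | some j =>
          intro i hi j hj
          simp only [Option.elim_some, compl_compl, mem_singleton_iff] at hi hj
          rw [hi, hj])
  refine ⟨fun j => p (some j), r, fun j => h1 (some j), h2, fun p' Q hp' hQ => ?_⟩
  have h4 := h3 (fun j => j.elim (p none) p') Q (by
    intro j
    cases j with
    | none => exact le_rfl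
    | some j => exact hp' j) hQ
  have h5 : rowLevels c (fun j : Option A => j.elim (p none) p') Q
      (fun j => j.elim {c s t}ᶜ (fun j => {f j}ᶜ)) ⊆ rowLevels c p' Q (fun j => {f j}ᶜ) := by
    rintro ζ ⟨x, y, hx, hy, hxy⟩
    exact ⟨fun j => x (some j), y, fun j => hx (some j), hy, fun j q hq => hxy (some j) q hq⟩
  rcases hL with rfl | ⟨D, -, rfl⟩
  · exact Set.Nonempty.mono h5 h4
  · exact Filter.mem_of_superset h4 h5

end Pool.Agent.Helper39.HG
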