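import Pool.Agent.Helper39.HG.Trans

/-!
# All patterns above the same nodes
-/

set_option autoImplicit false

open Cardinal Set Helper2.HB Pool.Agent.Helper58.HL Pool.Agent.Helper39.HL
  Pool.Agent.Helper39.HT

namespace Pool.Agent.Helper39.HG

variable {κ : Cardinal.{0}} {a n : ℕ} {S : Fin (a + 1) → Set (Node κ.ord.ToType)}
  {T : Fin (n + 1) → Set (Node κ.ord.ToType)} {ι : Type}

/-- homogeneous strong subtrees, or all patterns are avoided above the same nodes -/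
theorem pattern_uniform (hκ : κ.IsInaccessible) (hHL : HLProp κ (n + 1))
    (hS : ∀ l, IsRegularTree (S l)) (hT : ∀ l, IsRegularTree (T l)) (hι : #ι < κ)
    (c : ((l : Fin (a + 1)) → S l) → ((l : Fin (n + 1)) → T l) → ι)
    (s : (l : Fin (a + 1)) → S l) (t : (l : Fin (n + 1)) → T l)
    (hno : ∀ (s' : (l : Fin (a + 1)) → S l) (t' : (l : Fin (n + 1)) → T l), s ≤ s' → t ≤ t' →
      ¬ HomogeneousG c s' t') (Large : Set κ.ord.ToType → Prop) (hL : IsLarge Large)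
    (A : Type) (hA : #A < κ) (P : A → (l : Fin (a + 1)) → S l) (hP : ∀ j, s ≤ P j) :
    ∃ (p : A → (l : Fin (a + 1)) → S l) (r : (l : Fin (n + 1)) → T l), P ≤ p ∧ t ≤ r ∧
      ∀ (f : A → ι) (p' : A → (l : Fin (a + 1)) → S l) (Q : (l : Fin (n + 1)) → Set (T l)),
        p ≤ p' → (∀ l, #(Q l) < κ ∧ ∀ q ∈ Q l, r l ≤ q) →
          Large (rowLevels c p' Q (fun j => {f j}ᶜ)) := by
  classical
  have hreg := hκ.isRegular
  have hlim : ∀ x < κ, 2 ^ x < κ := fun x hx => hκ.isStrongLimit.isStrongPrelimit hx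
  have hf : #(A → ι) < κ := by
    rw [← Cardinal.power_def]
    exact pow_lt hlim hreg.aleph0_le hι hA
  obtain ⟨z, hz, hzf⟩ := ((Closed.pi (J := A) (closed_tuple hreg hS)).prod
    (closed_tuple hreg hT)).meet hreg.aleph0_le hf
    (fun (f : A → ι) (z : (A → (l : Fin (a + 1)) → S l) × ((l : Fin (n + 1)) → T l)) =>
      ∀ (p' : A → (l : Fin (a + 1)) → S l) (Q : (l : Fin (n + 1)) → Set (T l)),
        z.1 ≤ p' → (∀ l, #(Q l) < κ ∧ ∀ q ∈ Q l, z.2 l ≤ q) →
          Large (rowLevels c p' Q (fun j => {f j}ᶜ)))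
    (by
      intro f z w hzw h p' Q hp' hQ
      exact h p' Q (hzw.1.trans hp') fun l => ⟨(hQ l).1, fun q hq =>
        (hzw.2 l).trans ((hQ l).2 q hq)⟩) (P, t) (by
      rintro f ⟨p0, r0⟩ hz
      have hz1 : P ≤ p0 := hz.1
      have hz2 : t ≤ r0 := hz.2
      obtain ⟨p, r, h1, h2, h3⟩ := patternG_ne hκ hHL hS hT hι c s r0
        (fun s' t' h1 h2 => hno s' t' h1 (hz2.trans h2)) Large hL A hA p0
        (fun j => (hP j).trans (hz1 j)) f
      refine ⟨(p, r), ⟨h1, h2⟩, fun p' Q hp' hQ => h3 p' Q hp' ?_⟩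
      rw [Cardinal.mk_ord_toType]
      exact hQ)
  exact ⟨z.1, z.2, hz.1, hz.2, fun f p' Q hp' hQ => hzf f p' Q hp' hQ⟩

end Pool.Agent.Helper39.HG
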